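import Mathlib

/-!
# The space `L₁ + L_∞` on `(0, ∞)` is not isomorphic to a dual space

All function spaces are real.  `SumSpace μ` is the space of all classes of measurable functions of
the form `u + v` with `u ∈ L₁(μ)` and `v ∈ L_∞(μ)`, with the norm
`‖x‖ = inf {‖u‖₁ + ‖v‖_∞ : x = u + v}`.  The main theorem `result` says that for the Lebesgue measure
on `(0, ∞)` this space is not linearly homeomorphic to the dual of any real normed space.

Outline of the proof.  Let `e : Y* ≃ L₁ + L_∞`.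

* `localRefl`: a form of local reflexivity for families of functionals `Φ_i ∈ Y**` whose signed sums
  are bounded by `C`: there are `y_i ∈ Y` with signed sums bounded by `C` which pair with given
  `w_i ∈ Y*` almost as the `Φ_i` do.
* `exists_good`: using `localRefl` and a balancing argument (`split`) one constructs a dyadic tree of
  subsets of `(0, 1]` and vectors `y^n_s ∈ Y`, `s ∈ {0,1}^(n+1)`, with uniformly bounded signed sums,
  such that normalised indicators of the sets of the tree pair to more than `1/2` with all earlier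
  vectors on the same branch.
* `exists_branch`: weak-star cluster points along the branches give functionals `g_σ ∈ Y*`, one for
  each `σ ∈ {0,1}^ℕ`, with `g_σ (y^n_(σ|n+1)) ≥ 1/2` for all `n`.
* `riesz`: functionals `D_k` on `L_∞` with `∑ |D_k v| ≤ C ‖v‖` have `∑ ‖D_k‖² ≤ 4 C²` (a Riesz product
  argument), so the `L_∞` part of `e g_σ` cannot be responsible for these values on many branches; as
  `L₁` is separable, the `L₁` part cannot either.
-/

open MeasureTheory Filter Topology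

namespace Pool.Agent.Helper81.SumDual

noncomputable section

/-! ### The space `L₁ + L_∞` -/

section Space

variable {α : Type*} [MeasurableSpace α]

/-- The linear space `L₁(μ) + L_∞(μ)` of classes of measurable functions which are the sum of an
integrable function and an essentially bounded function. -/
def sumSubmodule (μ : Measure α) : Submodule ℝ (α →ₘ[μ] ℝ) :=
  Lp.LpSubmodule ℝ ℝ 1 μ ⊔ Lp.LpSubmodule ℝ ℝ ⊤ μ

lemma mem_of_L1 {μ : Measure α} (u : Lp ℝ 1 μ) : (u : α →ₘ[μ] ℝ) ∈ sumSubmodule μ :=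
  Submodule.mem_sup_left (show (u : α →ₘ[μ] ℝ) ∈ Lp.LpSubmodule ℝ ℝ 1 μ from u.2)

lemma mem_of_Linf {μ : Measure α} (v : Lp ℝ ⊤ μ) : (v : α →ₘ[μ] ℝ) ∈ sumSubmodule μ :=
  Submodule.mem_sup_right (show (v : α →ₘ[μ] ℝ) ∈ Lp.LpSubmodule ℝ ℝ ⊤ μ from v.2)

/-- `L₁(μ) + L_∞(μ)` as a type. -/
def SumSpace (μ : Measure α) : Type _ := ↥(sumSubmodule μ)

namespace SumSpace

variable {μ : Measure α}

instance : AddCommGroup (SumSpace μ) := inferInstanceAs (AddCommGroup ↥(sumSubmodule μ))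
instance : Module ℝ (SumSpace μ) := inferInstanceAs (Module ℝ ↥(sumSubmodule μ))

/-- The underlying class of measurable functions. -/
def val : SumSpace μ →ₗ[ℝ] (α →ₘ[μ] ℝ) := (sumSubmodule μ).subtype

/-- An element of the sum space from a class of functions in the submodule. -/
def mk (y : α →ₘ[μ] ℝ) (hy : y ∈ sumSubmodule μ) : SumSpace μ := ⟨y, hy⟩

lemma val_mk (y : α →ₘ[μ] ℝ) (hy : y ∈ sumSubmodule μ) : val (mk y hy) = y := rfl

lemma val_injective : Function.Injective (val : SumSpace μ → (α →ₘ[μ] ℝ)) := Subtype.val_injective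

/-- The norm `‖x‖ = inf {‖u‖₁ + ‖v‖_∞ : x = u + v, u ∈ L₁, v ∈ L_∞}`. -/
instance : Norm (SumSpace μ) :=
  ⟨fun x => sInf {r : ℝ | ∃ (u : Lp ℝ 1 μ) (v : Lp ℝ ⊤ μ),
    val x = (u : α →ₘ[μ] ℝ) + (v : α →ₘ[μ] ℝ) ∧ r = ‖u‖ + ‖v‖}⟩

lemma norm_eq (x : SumSpace μ) : ‖x‖ = sInf {r : ℝ | ∃ (u : Lp ℝ 1 μ) (v : Lp ℝ ⊤ μ),
    val x = (u : α →ₘ[μ] ℝ) + (v : α →ₘ[μ] ℝ) ∧ r = ‖u‖ + ‖v‖} := rfl

lemma set_nonempty (x : SumSpace μ) : {r : ℝ | ∃ (u : Lp ℝ 1 μ) (v : Lp ℝ ⊤ μ),
    val x = (u : α →ₘ[μ] ℝ) + (v : α →ₘ[μ] ℝ) ∧ r = ‖u‖ + ‖v‖}.Nonempty := by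
  obtain ⟨y, hy, z, hz, hyz⟩ := Submodule.mem_sup.mp (show val x ∈ sumSubmodule μ from x.2)
  exact ⟨_, ⟨y, hy⟩, ⟨z, hz⟩, hyz.symm, rfl⟩

lemma set_bddBelow (x : SumSpace μ) : BddBelow {r : ℝ | ∃ (u : Lp ℝ 1 μ) (v : Lp ℝ ⊤ μ),
    val x = (u : α →ₘ[μ] ℝ) + (v : α →ₘ[μ] ℝ) ∧ r = ‖u‖ + ‖v‖} := by
  refine ⟨0, ?_⟩
  rintro r ⟨u, v, _, rfl⟩
  positivity

lemma exists_decomp (x : SumSpace μ) {ε : ℝ} (hε : 0 < ε) : ∃ (u : Lp ℝ 1 μ) (v : Lp ℝ ⊤ μ),
    val x = (u : α →ₘ[μ] ℝ) + (v : α →ₘ[μ] ℝ) ∧ ‖u‖ + ‖v‖ < ‖x‖ + ε := by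
  obtain ⟨r, ⟨u, v, h1, rfl⟩, h2⟩ := Real.lt_sInf_add_pos (set_nonempty x) hε
  exact ⟨u, v, h1, h2⟩

lemma norm_le (x : SumSpace μ) (u : Lp ℝ 1 μ) (v : Lp ℝ ⊤ μ) 
    (h : val x = (u : α →ₘ[μ] ℝ) + (v : α →ₘ[μ] ℝ)) : ‖x‖ ≤ ‖u‖ + ‖v‖ :=
  csInf_le (set_bddBelow x) ⟨u, v, h, rfl⟩

lemma norm_nonneg' (x : SumSpace μ) : 0 ≤ ‖x‖ := by
  refine le_csInf (set_nonempty x) ?_
  rintro r ⟨u, v, _, rfl⟩
  positivity

lemma norm_add_le' (x y : SumSpace μ) : ‖x + y‖ ≤ ‖x‖ + ‖y‖ := by
  refine le_of_forall_pos_le_add fun ε hε => ?_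
  obtain ⟨u, v, h1, h2⟩ := exists_decomp x (half_pos hε)
  obtain ⟨u', v', h1', h2'⟩ := exists_decomp y (half_pos hε)
  have h3 : ‖x + y‖ ≤ ‖u + u'‖ + ‖v + v'‖ := by
    apply norm_le
    rw [map_add, h1, h1', AddSubgroup.coe_add, AddSubgroup.coe_add]
    abel
  have h4 := norm_add_le u u'
  have h5 := norm_add_le v v'
  linarith

lemma norm_smul_le' (c : ℝ) (x : SumSpace μ) : ‖c • x‖ ≤ ‖c‖ * ‖x‖ := by
  refine le_of_forall_pos_le_add fun ε hε => ?_
  obtain ⟨u, v, h1, h2⟩ := exists_decomp x (show 0 < ε / (‖c‖ + 1) by positivity)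
  have h3 : ‖c • x‖ ≤ ‖c • u‖ + ‖c • v‖ := by
    apply norm_le
    rw [map_smul, h1, smul_add]
    rfl
  rw [norm_smul c u, norm_smul c v, ← mul_add] at h3
  have h4 : ‖c‖ * (ε / (‖c‖ + 1)) ≤ ε := by
    rw [mul_div_assoc', div_le_iff₀ (by positivity)]
    nlinarith [norm_nonneg c]
  nlinarith [norm_nonneg c]

lemma norm_smul' (c : ℝ) (x : SumSpace μ) : ‖c • x‖ = ‖c‖ * ‖x‖ := by
  refine le_antisymm (norm_smul_le' c x) ?_
  rcases eq_or_ne c 0 with rfl | hc
  · rw [norm_zero, zero_mul]; exact norm_nonneg' _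
  · have h1 := norm_smul_le' c⁻¹ (c • x)
    rw [smul_smul, inv_mul_cancel₀ hc, one_smul, norm_inv] at h1
    have h2 : 0 < ‖c‖ := norm_pos_iff.mpr hc
    calc ‖c‖ * ‖x‖ ≤ ‖c‖ * (‖c‖⁻¹ * ‖c • x‖) := by gcongr
      _ = ‖c • x‖ := by field_simp

lemma norm_zero' : ‖(0 : SumSpace μ)‖ = 0 := by
  have h := norm_smul' (0 : ℝ) (0 : SumSpace μ)
  rwa [zero_smul, norm_zero, zero_mul] at h

lemma eq_zero_of_norm (x : SumSpace μ) (hx : ‖x‖ = 0) : x = 0 := by
  apply val_injective
  rw [map_zero]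
  apply AEEqFun.ext
  refine Filter.EventuallyEq.trans ?_ AEEqFun.coeFn_zero.symm
  -- show that for all ε > 0, the set where |x| > 2 ε has measure zero
  have key : ∀ ε : ℝ, 0 < ε → ∀ᵐ t ∂μ, ‖(val x) t‖ ≤ 2 * ε := by
    intro ε hε
    rw [ae_iff]
    have h1 : ∀ η : ℝ, 0 < η → μ {t | ¬ ‖(val x) t‖ ≤ 2 * ε} ≤ ENNReal.ofReal η := by
      intro η hη
      obtain ⟨u, v, h1, h2⟩ := exists_decomp x (show 0 < min ε (η * ε) by positivity)
      rw [hx, zero_add] at h2
      have hv : ∀ᵐ t ∂μ, ‖(v : α → ℝ) t‖ ≤ ε := by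
        have h3 := ae_le_eLpNormEssSup (f := (v : α → ℝ)) (μ := μ)
        filter_upwards [h3] with t ht
        have h5 : eLpNormEssSup (v : α → ℝ) μ ≠ ⊤ := by
          have := Lp.eLpNorm_ne_top v
          rwa [eLpNorm_exponent_top] at this
        have h6 : eLpNormEssSup (v : α → ℝ) μ ≤ ENNReal.ofReal ε := by
          rw [← ENNReal.ofReal_toReal h5]
          apply ENNReal.ofReal_le_ofReal
          have h4 : ‖v‖ ≤ ε := by
            have := min_le_left ε (η * ε)
            linarith [norm_nonneg u]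
          rwa [Lp.norm_def, eLpNorm_exponent_top] at h4
        have h7 := ht.trans h6
        rw [← ofReal_norm] at h7
        exact (ENNReal.ofReal_le_ofReal_iff hε.le).mp h7
      have hxuv : (val x : α → ℝ) =ᵐ[μ] fun t => (u : α → ℝ) t + (v : α → ℝ) t := by
        rw [h1]
        exact AEEqFun.coeFn_add _ _
      have hsub : {t | ¬ ‖(val x) t‖ ≤ 2 * ε} ≤ᵐ[μ] {t | ENNReal.ofReal ε ≤ ‖(u : α → ℝ) t‖ₑ} := by
        filter_upwards [hv, hxuv] with t ht1 ht2 ht3
        change ENNReal.ofReal ε ≤ ‖(u : α → ℝ) t‖ₑ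
        have ht4 : ¬ ‖(val x) t‖ ≤ 2 * ε := ht3
        rw [← ofReal_norm]
        apply ENNReal.ofReal_le_ofReal
        rw [ht2] at ht4
        have := norm_add_le ((u : α → ℝ) t) ((v : α → ℝ) t)
        linarith
      refine (measure_mono_ae hsub).trans ?_
      have h8 := mul_meas_ge_le_lintegral₀ (Lp.aestronglyMeasurable u).enorm (ENNReal.ofReal ε)
      have h9 : ∫⁻ t, ‖(u : α → ℝ) t‖ₑ ∂μ ≤ ENNReal.ofReal (η * ε) := by
        have h10 : ∫⁻ t, ‖(u : α → ℝ) t‖ₑ ∂μ = ENNReal.ofReal ‖u‖ := by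
          rw [Lp.norm_def, ENNReal.ofReal_toReal (Lp.eLpNorm_ne_top u), eLpNorm_one_eq_lintegral_enorm]
        rw [h10]
        apply ENNReal.ofReal_le_ofReal
        have := min_le_right ε (η * ε)
        linarith [norm_nonneg v]
      have h11 := h8.trans h9
      rw [mul_comm η ε, ENNReal.ofReal_mul hε.le] at h11
      exact (ENNReal.mul_le_mul_iff_right (ENNReal.ofReal_pos.mpr hε).ne' ENNReal.ofReal_ne_top).mp h11
    refine le_antisymm ?_ zero_le
    refine ENNReal.le_of_forall_pos_le_add fun η hη _ => ?_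
    rw [zero_add]
    have := h1 η (by exact_mod_cast hη)
    rwa [ENNReal.ofReal_coe_nnreal] at this
  have h2 : ∀ᵐ t ∂μ, ∀ n : ℕ, ‖(val x) t‖ ≤ 2 * (1 / ((n : ℝ) + 1)) := by
    rw [ae_all_iff]
    intro n
    exact key _ (by positivity)
  filter_upwards [h2] with t ht
  have h3 : Tendsto (fun n : ℕ => 2 * (1 / ((n : ℝ) + 1))) atTop (𝓝 (2 * 0)) :=
    tendsto_one_div_add_atTop_nhds_zero_nat.const_mul 2
  rw [mul_zero] at h3
  have h4 : ‖(val x) t‖ ≤ 0 := ge_of_tendsto' h3 ht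
  simpa using h4

lemma core (μ : Measure α) : NormedSpace.Core ℝ (SumSpace μ) where
  norm_nonneg := norm_nonneg'
  norm_smul := norm_smul'
  norm_triangle := norm_add_le'
  norm_eq_zero_iff x := ⟨eq_zero_of_norm x, fun h => by rw [h]; exact norm_zero'⟩

instance : NormedAddCommGroup (SumSpace μ) := NormedAddCommGroup.ofCore (core μ)
instance : NormedSpace ℝ (SumSpace μ) := NormedSpace.ofCore (core μ)

/-- The inclusion of `L₁`. -/
def ofL1 : Lp ℝ 1 μ →L[ℝ] SumSpace μ :=
  LinearMap.mkContinuous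
    { toFun := fun u => mk (u : α →ₘ[μ] ℝ) (mem_of_L1 u)
      map_add' := fun _ _ => rfl
      map_smul' := fun _ _ => rfl } 1 (fun u => by
        have : ‖mk (u : α →ₘ[μ] ℝ) (mem_of_L1 u)‖ ≤ ‖u‖ + ‖(0 : Lp ℝ ⊤ μ)‖ :=
          norm_le _ u 0 (by rw [AddSubgroup.coe_zero, add_zero, val_mk])
        rw [norm_zero, add_zero] at this
        rw [one_mul]
        exact this)

/-- The inclusion of `L_∞`. -/
def ofLinf : Lp ℝ ⊤ μ →L[ℝ] SumSpace μ :=
  LinearMap.mkContinuous
    { toFun := fun u => mk (u : α →ₘ[μ] ℝ) (mem_of_Linf u)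
      map_add' := fun _ _ => rfl
      map_smul' := fun _ _ => rfl } 1 (fun u => by
        have : ‖mk (u : α →ₘ[μ] ℝ) (mem_of_Linf u)‖ ≤ ‖(0 : Lp ℝ 1 μ)‖ + ‖u‖ :=
          norm_le _ 0 u (by rw [AddSubgroup.coe_zero, zero_add, val_mk])
        rw [norm_zero, zero_add] at this
        rw [one_mul]
        exact this)

lemma val_ofL1 (u : Lp ℝ 1 μ) : val (ofL1 u) = (u : α →ₘ[μ] ℝ) := rfl
lemma val_ofLinf (u : Lp ℝ ⊤ μ) : val (ofLinf u) = (u : α →ₘ[μ] ℝ) := rfl

lemma norm_ofL1_le (u : Lp ℝ 1 μ) : ‖ofL1 u‖ ≤ ‖u‖ := by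
  have := ((ofL1 : Lp ℝ 1 μ →L[ℝ] SumSpace μ)).le_of_opNorm_le (LinearMap.mkContinuous_norm_le _ zero_le_one _) u
  rwa [one_mul] at this

lemma norm_ofLinf_le (u : Lp ℝ ⊤ μ) : ‖ofLinf u‖ ≤ ‖u‖ := by
  have := ((ofLinf : Lp ℝ ⊤ μ →L[ℝ] SumSpace μ)).le_of_opNorm_le (LinearMap.mkContinuous_norm_le _ zero_le_one _) u
  rwa [one_mul] at this

lemma exists_decomp' (x : SumSpace μ) {ε : ℝ} (hε : 0 < ε) : ∃ (u : Lp ℝ 1 μ) (v : Lp ℝ ⊤ μ),
    x = ofL1 u + ofLinf v ∧ ‖u‖ + ‖v‖ < ‖x‖ + ε := by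
  obtain ⟨u, v, h1, h2⟩ := exists_decomp x hε
  refine ⟨u, v, val_injective ?_, h2⟩
  rw [h1, map_add, val_ofL1, val_ofLinf]


/-- The space `L₁(μ) + L_∞(μ)` is complete. -/
instance : CompleteSpace (SumSpace μ) := by
  apply NormedAddCommGroup.completeSpace_of_summable_imp_tendsto
  intro x hx
  have hdec : ∀ n : ℕ, ∃ (u : Lp ℝ 1 μ) (v : Lp ℝ ⊤ μ), x n = ofL1 u + ofLinf v ∧
      ‖u‖ + ‖v‖ < ‖x n‖ + (1 / 2) ^ n := fun n => exists_decomp' _ (by positivity)
  choose u v h1 h2 using hdec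
  have hs : Summable fun n : ℕ => ‖x n‖ + (1 / 2 : ℝ) ^ n :=
    hx.add (summable_geometric_of_lt_one (by norm_num) (by norm_num))
  have hu : Summable fun n => ‖u n‖ := hs.of_nonneg_of_le (fun n => norm_nonneg _) (fun n => by
    have := h2 n
    have := norm_nonneg (v n)
    linarith)
  have hv : Summable fun n => ‖v n‖ := hs.of_nonneg_of_le (fun n => norm_nonneg _) (fun n => by
    have := h2 n
    have := norm_nonneg (u n)
    linarith)
  have hu' : Summable u := hu.of_norm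
  have hv' : Summable v := hv.of_norm
  refine ⟨ofL1 (∑' n, u n) + ofLinf (∑' n, v n), ?_⟩
  have h3 : Tendsto (fun n => ofL1 (∑ i ∈ Finset.range n, u i)) atTop
      (𝓝 (ofL1 (∑' n, u n) : SumSpace μ)) :=
    ((ofL1 : Lp ℝ 1 μ →L[ℝ] SumSpace μ).continuous.tendsto _).comp hu'.hasSum.tendsto_sum_nat
  have h4 : Tendsto (fun n => ofLinf (∑ i ∈ Finset.range n, v i)) atTop
      (𝓝 (ofLinf (∑' n, v n) : SumSpace μ)) :=
    ((ofLinf : Lp ℝ ⊤ μ →L[ℝ] SumSpace μ).continuous.tendsto _).comp hv'.hasSum.tendsto_sum_nat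
  refine (h3.add h4).congr fun n => ?_
  rw [map_sum, map_sum, ← Finset.sum_add_distrib]
  exact Finset.sum_congr rfl fun i _ => (h1 i).symm

end SumSpace

end Space

/-! ### Auxiliary results -/




/-- sign of a boolean -/
def sg (b : Bool) : ℝ := if b then 1 else -1

lemma sum_norm_le {κ : Type*} [Fintype κ] [DecidableEq κ] {Y : Type*} [NormedAddCommGroup Y] [NormedSpace ℝ Y]
    (Ψ : StrongDual ℝ (κ → Y)) :
    ∑ k, ‖Ψ.comp (ContinuousLinearMap.single ℝ (fun _ : κ => Y) k)‖ ≤ ‖Ψ‖ := by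
  set u : κ → StrongDual ℝ Y := fun k => Ψ.comp (ContinuousLinearMap.single ℝ (fun _ : κ => Y) k) with hu
  refine le_of_forall_pos_le_add fun η hη => ?_
  set η' : ℝ := η / (Fintype.card κ + 1) with hη'
  have hη'pos : 0 < η' := by positivity
  have key : ∀ k, ∃ y : Y, ‖y‖ ≤ 1 ∧ ‖u k‖ - η' ≤ u k y := by
    intro k
    obtain ⟨x, hx1, hx2⟩ := ContinuousLinearMap.exists_lt_apply_of_lt_opNorm (u k) (show ‖u k‖ - η' < ‖u k‖ by linarith)
    rcases le_or_gt 0 (u k x) with h | h
    · refine ⟨x, hx1.le, ?_⟩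
      rw [Real.norm_of_nonneg h] at hx2
      exact hx2.le
    · refine ⟨-x, by simpa using hx1.le, ?_⟩
      rw [Real.norm_of_nonpos h.le] at hx2
      simpa using hx2.le
  choose y hy1 hy2 using key
  have h1 : Ψ y = ∑ k, u k (y k) := by
    have : y = ∑ k, Pi.single k (y k) := by
      ext j
      simp [Finset.sum_apply, Pi.single_apply]
    conv_lhs => rw [this]
    rw [map_sum]
    rfl
  have h2 : Ψ y ≤ ‖Ψ‖ := by
    have h3 : ‖y‖ ≤ 1 := by
      rw [pi_norm_le_iff_of_nonneg zero_le_one]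
      exact hy1
    calc Ψ y ≤ ‖Ψ y‖ := le_abs_self _
      _ ≤ ‖Ψ‖ * ‖y‖ := Ψ.le_opNorm y
      _ ≤ ‖Ψ‖ * 1 := by gcongr
      _ = ‖Ψ‖ := mul_one _
  have h4 : ∑ k, (‖u k‖ - η') ≤ ‖Ψ‖ := by
    calc ∑ k, (‖u k‖ - η') ≤ ∑ k, u k (y k) := Finset.sum_le_sum fun k _ => hy2 k
      _ = Ψ y := h1.symm
      _ ≤ ‖Ψ‖ := h2
  rw [Finset.sum_sub_distrib] at h4
  simp only [Finset.sum_const, Finset.card_univ, nsmul_eq_mul] at h4
  have h5 : (Fintype.card κ : ℝ) * η' ≤ η := by
    rw [hη', mul_div_assoc', div_le_iff₀ (by positivity)]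
    nlinarith
  linarith

/-- Local reflexivity for finite families, in the form needed here. -/
theorem localRefl {Y : Type*} [NormedAddCommGroup Y] [NormedSpace ℝ Y] {ι : Type*} [Fintype ι]
    (Φ : ι → StrongDual ℝ (StrongDual ℝ Y)) (C : ℝ) (hC : 0 < C)
    (hΦ : ∀ ε : ι → Bool, ‖∑ i, sg (ε i) • Φ i‖ ≤ C)
    (w : ι → StrongDual ℝ Y) (δ : ℝ) (hδ : 0 < δ) :
    ∃ y : ι → Y, (∀ ε : ι → Bool, ‖∑ i, sg (ε i) • y i‖ ≤ C) ∧ ∀ i, Φ i (w i) - δ < w i (y i) := by
  classical
  set B : Set (ι → Y) := {y | ∀ ε : ι → Bool, ‖∑ i, sg (ε i) • y i‖ ≤ C} with hB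
  have hB0 : (0 : ι → Y) ∈ B := by
    intro ε
    simp [hC.le]
  have hBconv : Convex ℝ B := by
    intro x hx y hy a b ha hb hab ε
    have : ∑ i, sg (ε i) • (a • x + b • y) i = a • (∑ i, sg (ε i) • x i) + b • ∑ i, sg (ε i) • y i := by
      simp only [Pi.add_apply, Pi.smul_apply, smul_add, Finset.sum_add_distrib, Finset.smul_sum]
      congr 1 <;> refine Finset.sum_congr rfl fun i _ => smul_comm _ _ _
    rw [this]
    calc ‖a • (∑ i, sg (ε i) • x i) + b • ∑ i, sg (ε i) • y i‖ 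
        ≤ ‖a • (∑ i, sg (ε i) • x i)‖ + ‖b • ∑ i, sg (ε i) • y i‖ := norm_add_le _ _
      _ = a * ‖∑ i, sg (ε i) • x i‖ + b * ‖∑ i, sg (ε i) • y i‖ := by
          rw [norm_smul, norm_smul, Real.norm_of_nonneg ha, Real.norm_of_nonneg hb]
      _ ≤ a * C + b * C := by
          gcongr
          · exact hx ε
          · exact hy ε
      _ = C := by rw [← add_mul, hab, one_mul]
  let L : (ι → Y) →ₗ[ℝ] (ι → ℝ) := LinearMap.pi fun i => (w i).toLinearMap ∘ₗ LinearMap.proj i
  have hLapp : ∀ y i, L y i = w i (y i) := fun y i => rfl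
  set O : Set (ι → ℝ) := Set.pi Set.univ fun i => Set.Ioi (Φ i (w i) - δ) with hO
  have hOopen : IsOpen O := isOpen_set_pi Set.finite_univ fun i _ => isOpen_Ioi
  have hOconv : Convex ℝ O := convex_pi fun i _ => convex_Ioi _
  by_contra hcon
  have hdisj : Disjoint O (L '' B) := by
    rw [Set.disjoint_left]
    rintro z hz ⟨y, hy, rfl⟩
    exact hcon ⟨y, hy, fun i => hz i (Set.mem_univ i)⟩
  obtain ⟨f, s, hf1, hf2⟩ := geometric_hahn_banach_open hOconv hOopen (hBconv.linear_image L) hdisj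
  -- coefficients
  set a : ι → ℝ := fun i => - f (Pi.single i 1) with ha
  have hfz : ∀ z : ι → ℝ, f z = - ∑ i, a i * z i := by
    intro z
    have : z = ∑ i, z i • (Pi.single i (1:ℝ) : ι → ℝ) := by
      ext j
      simp [Finset.sum_apply, Pi.single_apply]
    conv_lhs => rw [this]
    rw [map_sum, ← Finset.sum_neg_distrib]
    refine Finset.sum_congr rfl fun i _ => ?_
    rw [map_smul, smul_eq_mul, ha]
    ring
  set M : ℝ := - s with hM
  have hgt : M < ∑ i, a i * Φ i (w i) := by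
    have := hf1 (fun i => Φ i (w i)) (fun i _ => by simp [hδ])
    rw [hfz] at this
    linarith
  have hle : ∀ y ∈ B, ∑ i, a i * w i (y i) ≤ M := by
    intro y hy
    have := hf2 (L y) ⟨y, hy, rfl⟩
    rw [hfz] at this
    simp only [hLapp] at this
    linarith
  have hM0 : 0 ≤ M := by
    have := hle 0 hB0
    simpa using this
  -- the embedding
  let E : (ι → Y) →ₗ[ℝ] ((ι → Bool) → Y) :=
    LinearMap.pi fun ε => ∑ i, sg (ε i) • LinearMap.proj i
  have hEapp : ∀ y ε, E y ε = ∑ i, sg (ε i) • y i := by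
    intro y ε
    simp [E, LinearMap.pi_apply, LinearMap.sum_apply]
  have hEinj : Function.Injective E := by
    rw [injective_iff_map_eq_zero]
    intro y hy
    ext i
    have h1 := congrFun hy (fun _ => true)
    have h2 := congrFun hy (fun j => if j = i then false else true)
    rw [hEapp] at h1 h2
    have h3 : (∑ j, sg ((fun _ => true) j) • y j) - (∑ j, sg ((fun j => if j = i then false else true) j) • y j) = (2:ℝ) • y i := by
      rw [← Finset.sum_sub_distrib]
      rw [Finset.sum_eq_single i]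
      · simp [sg, two_smul]
      · intro j _ hj
        simp [sg, hj]
      · simp
    rw [h1, h2] at h3
    simp only [Pi.zero_apply, sub_zero] at h3
    have h4 := h3.symm
    rw [smul_eq_zero] at h4
    simpa using h4
  let g : (ι → Y) →ₗ[ℝ] ℝ := ∑ i, a i • ((w i).toLinearMap ∘ₗ LinearMap.proj i)
  have hgapp : ∀ y, g y = ∑ i, a i * w i (y i) := by
    intro y
    simp [g, LinearMap.sum_apply]
  have hgbound : ∀ y, g y ≤ (M / C) * ‖E y‖ := by
    intro y
    refine le_of_forall_pos_le_add fun η hη => ?_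
    -- choose r slightly bigger than ‖E y‖
    obtain ⟨r, hr1, hr2, hr3⟩ : ∃ r : ℝ, 0 < r ∧ ‖E y‖ ≤ r ∧ (M / C) * r ≤ (M / C) * ‖E y‖ + η := by
      refine ⟨‖E y‖ + η / (M / C + 1), by positivity, by
        have : 0 ≤ η / (M / C + 1) := by positivity
        linarith, ?_⟩
      rw [mul_add]
      gcongr
      rw [mul_div_assoc', div_le_iff₀ (by positivity)]
      nlinarith [div_nonneg hM0 hC.le]
    have hyB : (C / r) • y ∈ B := by
      intro ε
      have : ∑ i, sg (ε i) • ((C / r) • y) i = (C / r) • E y ε := by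
        rw [hEapp, Finset.smul_sum]
        refine Finset.sum_congr rfl fun i _ => ?_
        rw [Pi.smul_apply, smul_comm]
      rw [this, norm_smul, Real.norm_of_nonneg (by positivity)]
      calc C / r * ‖E y ε‖ ≤ C / r * ‖E y‖ := by
            gcongr
            exact norm_le_pi_norm _ _
        _ ≤ C / r * r := by gcongr
        _ = C := by field_simp
    have h1 := hle _ hyB
    have h2 : ∑ i, a i * w i (((C / r) • y) i) = (C / r) * g y := by
      rw [hgapp, Finset.mul_sum]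
      refine Finset.sum_congr rfl fun i _ => ?_
      rw [Pi.smul_apply, map_smul, smul_eq_mul]
      ring
    rw [h2] at h1
    have h3 : g y ≤ (M / C) * r := by
      have h4 : g y = (r / C) * (C / r * g y) := by field_simp
      rw [h4]
      calc (r / C) * (C / r * g y) ≤ (r / C) * M := by gcongr
        _ = (M / C) * r := by ring
    linarith
  have hgbound' : ∀ y, ‖g y‖ ≤ (M / C) * ‖E y‖ := by
    intro y
    rw [Real.norm_eq_abs, abs_le]
    constructor
    · have := hgbound (-y)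
      rw [map_neg, map_neg, norm_neg] at this
      linarith
    · exact hgbound y
  let eq := LinearEquiv.ofInjective E hEinj
  let f0 : LinearMap.range E →ₗ[ℝ] ℝ := g ∘ₗ eq.symm.toLinearMap
  have hf0 : ∀ z : LinearMap.range E, ‖f0 z‖ ≤ (M / C) * ‖z‖ := by
    intro z
    have h1 := hgbound' (eq.symm z)
    have h2 : E (eq.symm z) = z := by
      have : (eq (eq.symm z) : (ι → Bool) → Y) = E (eq.symm z) := LinearEquiv.ofInjective_apply E _
      rw [← this, LinearEquiv.apply_symm_apply]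
    rw [h2] at h1
    exact h1
  obtain ⟨Ψ, hΨ1, hΨ2⟩ := exists_extension_norm_eq (LinearMap.range E) (f0.mkContinuous (M / C) hf0)
  have hΨnorm : ‖Ψ‖ ≤ M / C := by
    rw [hΨ2]
    exact LinearMap.mkContinuous_norm_le _ (by positivity) _
  have hΨE : ∀ y, Ψ (E y) = g y := by
    intro y
    have h1 := hΨ1 ⟨E y, LinearMap.mem_range_self E y⟩
    simp only at h1
    rw [h1]
    change g (eq.symm ⟨E y, LinearMap.mem_range_self E y⟩) = g y
    congr 1
    rw [LinearEquiv.symm_apply_eq]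
    ext1
    simp [eq, LinearEquiv.ofInjective_apply]
  set u : (ι → Bool) → StrongDual ℝ Y := fun ε => Ψ.comp (ContinuousLinearMap.single ℝ (fun _ : ι → Bool => Y) ε) with hu
  have hΨsum : ∀ z : (ι → Bool) → Y, Ψ z = ∑ ε, u ε (z ε) := by
    intro z
    have : z = ∑ ε, Pi.single ε (z ε) := by
      ext j
      simp [Finset.sum_apply, Pi.single_apply]
    conv_lhs => rw [this]
    rw [map_sum]
    rfl
  have hv : ∀ i, a i • w i = ∑ ε, sg (ε i) • u ε := by
    intro i
    ext y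
    have h1 := hΨE (Pi.single i y)
    rw [hgapp, Finset.sum_eq_single i, hΨsum] at h1
    · rw [Pi.single_eq_same] at h1
      simp only [smul_apply, sum_apply, smul_eq_mul] at h1 ⊢
      rw [← h1]
      refine Finset.sum_congr rfl fun ε _ => ?_
      have h2 : E (Pi.single i y) ε = sg (ε i) • y := by
        rw [hEapp, Finset.sum_eq_single i]
        · rw [Pi.single_eq_same]
        · intro j _ hj
          rw [Pi.single_eq_of_ne hj, smul_zero]
        · simp
      rw [h2, map_smul, smul_eq_mul]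
    · intro j _ hj
      rw [Pi.single_eq_of_ne hj, map_zero, mul_zero]
    · simp
  have hfinal : ∑ i, a i * Φ i (w i) ≤ M := by
    calc ∑ i, a i * Φ i (w i) = ∑ i, Φ i (a i • w i) := by
          refine Finset.sum_congr rfl fun i _ => ?_
          rw [map_smul, smul_eq_mul]
      _ = ∑ i, ∑ ε : ι → Bool, sg (ε i) * Φ i (u ε) := by
          refine Finset.sum_congr rfl fun i _ => ?_
          rw [hv, map_sum]
          refine Finset.sum_congr rfl fun ε _ => ?_
          rw [map_smul, smul_eq_mul]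
      _ = ∑ ε : ι → Bool, (∑ i, sg (ε i) • Φ i) (u ε) := by
          rw [Finset.sum_comm]
          refine Finset.sum_congr rfl fun ε _ => ?_
          simp [sum_apply]
      _ ≤ ∑ ε : ι → Bool, C * ‖u ε‖ := by
          refine Finset.sum_le_sum fun ε _ => ?_
          calc (∑ i, sg (ε i) • Φ i) (u ε) ≤ ‖(∑ i, sg (ε i) • Φ i) (u ε)‖ := le_abs_self _
            _ ≤ ‖∑ i, sg (ε i) • Φ i‖ * ‖u ε‖ := ContinuousLinearMap.le_opNorm _ _
            _ ≤ C * ‖u ε‖ := by
              gcongr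
              exact hΦ ε
      _ = C * ∑ ε : ι → Bool, ‖u ε‖ := by rw [Finset.mul_sum]
      _ ≤ C * ‖Ψ‖ := by
          gcongr
          exact sum_norm_le Ψ
      _ ≤ C * (M / C) := by gcongr
      _ = M := by field_simp
  linarith



lemma rieszPoint {κ : Type*} [Fintype κ] [DecidableEq κ] (a : κ → ℝ) (k : κ) :
    ∑ ε : κ → Bool, sg (ε k) * (∏ j, ((1 : ℂ) + Complex.I * (sg (ε j) * a j : ℝ))).im
      = 2 ^ (Fintype.card κ) * a k := by
  have h1 : ∑ ε : κ → Bool, ((sg (ε k) : ℝ) : ℂ) * (∏ j, ((1 : ℂ) + Complex.I * (sg (ε j) * a j : ℝ)))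
      = 2 ^ (Fintype.card κ) * (Complex.I * a k) := by
    have h2 : ∀ ε : κ → Bool, ((sg (ε k) : ℝ) : ℂ) * (∏ j, ((1 : ℂ) + Complex.I * (sg (ε j) * a j : ℝ)))
        = ∏ j, (if j = k then ((sg (ε j) : ℝ) : ℂ) else 1) * ((1 : ℂ) + Complex.I * (sg (ε j) * a j : ℝ)) := by
      intro ε
      rw [Finset.prod_mul_distrib, Finset.prod_ite_eq' Finset.univ k]
      simp
    simp_rw [h2]
    have h3 := Finset.prod_univ_sum (fun _ : κ => (Finset.univ : Finset Bool))
      (fun j b => (if j = k then ((sg b : ℝ) : ℂ) else 1) * ((1 : ℂ) + Complex.I * (sg b * a j : ℝ)))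
    rw [Fintype.piFinset_univ] at h3
    rw [← h3]
    have h4 : ∀ j, ∑ b : Bool, (if j = k then ((sg b : ℝ) : ℂ) else 1) * ((1 : ℂ) + Complex.I * (sg b * a j : ℝ))
        = 2 * (if j = k then Complex.I * a k else 1) := by
      intro j
      rw [Fintype.sum_bool]
      by_cases hj : j = k
      · subst hj
        simp [sg]
        ring
      · simp [sg, hj]
        ring
    simp_rw [h4]
    rw [Finset.prod_mul_distrib, Finset.prod_ite_eq' Finset.univ k]
    simp
  have h5 := congrArg Complex.im h1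
  rw [Complex.im_sum] at h5
  have h6 : ((2 : ℂ) ^ (Fintype.card κ) * (Complex.I * a k)).im = 2 ^ (Fintype.card κ) * a k := by
    have : ((2 : ℂ) ^ (Fintype.card κ)) = (((2:ℝ) ^ (Fintype.card κ) : ℝ) : ℂ) := by push_cast; rfl
    rw [this, Complex.im_ofReal_mul]; simp
  rw [h6] at h5
  rw [← h5]
  refine Finset.sum_congr rfl fun ε _ => ?_
  rw [Complex.im_ofReal_mul]

lemma rieszBound {κ : Type*} [Fintype κ] [DecidableEq κ] (a : κ → ℝ) (s : κ → Bool) (ha : ∑ j, (a j)^2 ≤ 1) :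
    |(∏ j, ((1 : ℂ) + Complex.I * (sg (s j) * a j : ℝ))).im| ≤ 2 := by
  have h1 : ‖∏ j, ((1 : ℂ) + Complex.I * (sg (s j) * a j : ℝ))‖ ^ 2 ≤ 3 := by
    rw [norm_prod, ← Finset.prod_pow]
    have h2 : ∀ j, ‖((1 : ℂ) + Complex.I * (sg (s j) * a j : ℝ))‖ ^ 2 ≤ Real.exp ((a j)^2) := by
      intro j
      rw [← Complex.normSq_eq_norm_sq, Complex.normSq_apply]
      have : (sg (s j))^2 = 1 := by
        unfold sg; split_ifs <;> norm_num
      have h3 := Real.add_one_le_exp ((a j)^2)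
      simp only [Complex.add_re, Complex.one_re, Complex.mul_re, Complex.I_re, Complex.ofReal_re, Complex.I_im, Complex.ofReal_im, Complex.add_im, Complex.one_im, Complex.mul_im]
      nlinarith
    calc ∏ j, ‖((1 : ℂ) + Complex.I * (sg (s j) * a j : ℝ))‖ ^ 2 ≤ ∏ j, Real.exp ((a j)^2) := by
          refine Finset.prod_le_prod (fun j _ => by positivity) fun j _ => h2 j
      _ = Real.exp (∑ j, (a j)^2) := by rw [Real.exp_sum]
      _ ≤ Real.exp 1 := by gcongr
      _ ≤ 3 := by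
        have := Real.exp_one_lt_d9
        linarith
  have h4 : ‖∏ j, ((1 : ℂ) + Complex.I * (sg (s j) * a j : ℝ))‖ ≤ 2 := by
    nlinarith [norm_nonneg (∏ j, ((1 : ℂ) + Complex.I * (sg (s j) * a j : ℝ)))]
  exact (Complex.abs_im_le_norm _).trans h4

lemma coeFn_sum' {α : Type*} [MeasurableSpace α] {μ : Measure α} {p : ENNReal} {ι : Type*} (s : Finset ι)
    (f : ι → Lp ℝ p μ) : ((∑ i ∈ s, f i : Lp ℝ p μ) : α → ℝ) =ᵐ[μ] fun x => ∑ i ∈ s, (f i : α → ℝ) x := by
  classical
  induction s using Finset.induction_on with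
  | empty =>
    simp only [Finset.sum_empty]
    exact Lp.coeFn_zero ℝ p μ
  | insert i s hi ih =>
    rw [Finset.sum_insert hi]
    filter_upwards [Lp.coeFn_add (f i) (∑ j ∈ s, f j), ih] with x hx1 hx2
    rw [hx1, Pi.add_apply, hx2, Finset.sum_insert hi]

theorem riesz {α : Type*} [MeasurableSpace α] (μ : Measure α) {κ : Type*} [Fintype κ]
    (D : κ → StrongDual ℝ (Lp ℝ ⊤ μ)) (C : ℝ)
    (hD : ∀ v : Lp ℝ ⊤ μ, ∑ k, |D k v| ≤ C * ‖v‖) (v : κ → Lp ℝ ⊤ μ) (hv : ∀ k, ‖v k‖ ≤ 1)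
    (δ : ℝ) (hδ : 0 < δ) (hvD : ∀ k, δ ≤ D k (v k)) :
    δ ^ 2 * Fintype.card κ ≤ 4 * C ^ 2 := by
  classical
  rcases isEmpty_or_nonempty κ with hκ | hκ
  · simp [Fintype.card_eq_zero]
    positivity
  set K : ℝ := (Fintype.card κ : ℝ) with hK
  have hKpos : 0 < K := by
    rw [hK]; exact_mod_cast Fintype.card_pos
  have hC : 0 ≤ C := by
    obtain ⟨k⟩ := hκ
    have h1 := hD (v k)
    have h2 : 0 < ∑ j, |D j (v k)| := by
      calc 0 < δ := hδ
        _ ≤ D k (v k) := hvD k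
        _ ≤ |D k (v k)| := le_abs_self _
        _ ≤ ∑ j, |D j (v k)| := Finset.single_le_sum (f := fun j => |D j (v k)|) (fun j _ => abs_nonneg _) (Finset.mem_univ k)
    by_contra hneg
    push Not at hneg
    have : C * ‖v k‖ ≤ 0 := mul_nonpos_of_nonpos_of_nonneg hneg.le (norm_nonneg _)
    linarith
  -- the functions
  set a : κ → α → ℝ := fun k x => (v k : α → ℝ) x / √K with ha
  set P : (κ → Bool) → α → ℝ := fun ε x => (∏ j, ((1 : ℂ) + Complex.I * (sg (ε j) * a j x : ℝ))).im with hP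
  have hsm : ∀ k, AEStronglyMeasurable (a k) μ := fun k => by
    have := (Lp.aestronglyMeasurable (v k)).mul_const ((√K)⁻¹)
    simpa only [ha, div_eq_mul_inv] using this
  have hbd : ∀ᵐ x ∂μ, ∑ j, (a j x)^2 ≤ 1 := by
    have h1 : ∀ k, ∀ᵐ x ∂μ, ‖(v k : α → ℝ) x‖ ≤ 1 := by
      intro k
      have h2 := ae_le_eLpNormEssSup (f := (v k : α → ℝ)) (μ := μ)
      filter_upwards [h2] with x hx
      have h3 : eLpNormEssSup (v k : α → ℝ) μ ≤ 1 := by
        have h4 := hv k
        rw [Lp.norm_def, eLpNorm_exponent_top] at h4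
        have h5 : eLpNormEssSup (v k : α → ℝ) μ ≠ ⊤ := by
          have := Lp.eLpNorm_ne_top (v k)
          rwa [eLpNorm_exponent_top] at this
        rw [← ENNReal.ofReal_toReal h5]
        exact ENNReal.ofReal_le_one.mpr h4
      have h6 := hx.trans h3
      rw [← ofReal_norm] at h6
      exact ENNReal.ofReal_le_one.mp h6
    have h2 := eventually_all.mpr h1
    filter_upwards [h2] with x hx
    calc ∑ j, (a j x)^2 ≤ ∑ j : κ, 1 / K := by
          refine Finset.sum_le_sum fun j _ => ?_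
          rw [ha]
          simp only
          rw [div_pow, Real.sq_sqrt hKpos.le]
          gcongr
          have := hx j
          rw [Real.norm_eq_abs] at this
          rw [← sq_abs]
          nlinarith [abs_nonneg ((v j : α → ℝ) x)]
      _ = 1 := by
        rw [Finset.sum_const, Finset.card_univ, nsmul_eq_mul, ← hK]
        field_simp
  have hPsm : ∀ ε, AEStronglyMeasurable (P ε) μ := by
    intro ε
    have h1 : AEStronglyMeasurable (fun x => ∏ j, ((1 : ℂ) + Complex.I * (sg (ε j) * a j x : ℝ))) μ := by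
      refine Finset.aestronglyMeasurable_fun_prod _ fun j _ => ?_
      refine aestronglyMeasurable_const.add (aestronglyMeasurable_const.mul ?_)
      exact Complex.continuous_ofReal.comp_aestronglyMeasurable ((hsm j).const_mul _)
    exact Complex.continuous_im.comp_aestronglyMeasurable h1
  have hPbd : ∀ ε, ∀ᵐ x ∂μ, ‖P ε x‖ ≤ 2 := by
    intro ε
    filter_upwards [hbd] with x hx
    rw [Real.norm_eq_abs]
    exact rieszBound (fun j => a j x) ε hx
  have hPmem : ∀ ε, MemLp (P ε) ⊤ μ := fun ε => memLp_top_of_bound (hPsm ε) 2 (hPbd ε)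
  set V : (κ → Bool) → Lp ℝ ⊤ μ := fun ε => (hPmem ε).toLp (P ε) with hV
  have hVnorm : ∀ ε, ‖V ε‖ ≤ 2 := by
    intro ε
    rw [hV]
    simp only
    rw [Lp.norm_toLp, eLpNorm_exponent_top]
    refine ENNReal.toReal_le_of_le_ofReal (by norm_num) ?_
    exact eLpNormEssSup_le_of_ae_bound (hPbd ε)
  have hsum : ∀ k, ∑ ε : κ → Bool, sg (ε k) • V ε = ((2:ℝ) ^ (Fintype.card κ) / √K) • v k := by
    intro k
    apply Lp.ext
    have h1 : ((∑ ε : κ → Bool, sg (ε k) • V ε : Lp ℝ ⊤ μ) : α → ℝ) =ᵐ[μ] fun x => ∑ ε : κ → Bool, sg (ε k) * P ε x := by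
      refine (coeFn_sum' Finset.univ (fun ε : κ → Bool => sg (ε k) • V ε)).trans ?_
      have h2 : ∀ ε : κ → Bool, ((sg (ε k) • V ε : Lp ℝ ⊤ μ) : α → ℝ) =ᵐ[μ] fun x => sg (ε k) * P ε x := by
        intro ε
        filter_upwards [Lp.coeFn_smul (sg (ε k)) (V ε), (hPmem ε).coeFn_toLp] with x hx1 hx2
        rw [hx1, Pi.smul_apply, smul_eq_mul, hx2]
      filter_upwards [eventually_all.mpr h2] with x hx
      exact Finset.sum_congr rfl fun ε _ => hx ε
    filter_upwards [h1, Lp.coeFn_smul ((2:ℝ) ^ (Fintype.card κ) / √K) (v k)] with x hx1 hx2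
    rw [hx1, hx2]
    have := rieszPoint (fun j => a j x) k
    simp only [hP]
    rw [this, Pi.smul_apply, smul_eq_mul, ha]
    simp only
    ring
  have hfin : (Fintype.card κ : ℝ) * ((2:ℝ) ^ (Fintype.card κ) / √K * δ) ≤ 2 ^ (Fintype.card κ) * (C * 2) := by
    calc (Fintype.card κ : ℝ) * ((2:ℝ) ^ (Fintype.card κ) / √K * δ) = ∑ k : κ, ((2:ℝ) ^ (Fintype.card κ) / √K * δ) := by
          rw [Finset.sum_const, Finset.card_univ, nsmul_eq_mul]
      _ ≤ ∑ k : κ, ((2:ℝ) ^ (Fintype.card κ) / √K * D k (v k)) := by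
          refine Finset.sum_le_sum fun k _ => ?_
          gcongr
          exact hvD k
      _ = ∑ k : κ, ∑ ε : κ → Bool, sg (ε k) * D k (V ε) := by
          refine Finset.sum_congr rfl fun k _ => ?_
          have := congrArg (D k) (hsum k)
          rw [map_sum, map_smul, smul_eq_mul] at this
          rw [← this]
          refine Finset.sum_congr rfl fun ε _ => ?_
          rw [map_smul, smul_eq_mul]
      _ = ∑ ε : κ → Bool, ∑ k : κ, sg (ε k) * D k (V ε) := Finset.sum_comm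
      _ ≤ ∑ ε : κ → Bool, C * 2 := by
          refine Finset.sum_le_sum fun ε _ => ?_
          calc ∑ k : κ, sg (ε k) * D k (V ε) ≤ ∑ k : κ, |D k (V ε)| := by
                refine Finset.sum_le_sum fun k _ => ?_
                unfold sg
                split_ifs
                · rw [one_mul]; exact le_abs_self _
                · rw [neg_one_mul]; exact neg_le_abs _
            _ ≤ C * ‖V ε‖ := hD _
            _ ≤ C * 2 := by
              gcongr
              exact hVnorm ε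
      _ = 2 ^ (Fintype.card κ) * (C * 2) := by
          rw [Finset.sum_const, Finset.card_univ, nsmul_eq_mul]
          simp
  rw [← hK] at hfin
  have h2pos : (0:ℝ) < 2 ^ (Fintype.card κ) := by positivity
  have hsqrt : 0 < √K := Real.sqrt_pos.mpr hKpos
  have h7 : √K * δ ≤ 2 * C := by
    have h8 : K * ((2:ℝ) ^ (Fintype.card κ) / √K * δ) = 2 ^ (Fintype.card κ) * (√K * δ) := by
      have : K = √K * √K := (Real.mul_self_sqrt hKpos.le).symm
      field_simp
      rw [Real.sq_sqrt hKpos.le]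
    rw [h8] at hfin
    have := le_of_mul_le_mul_left hfin h2pos
    linarith
  have h9 : (√K * δ)^2 ≤ (2 * C)^2 := by
    gcongr
  rw [mul_pow, Real.sq_sqrt hKpos.le] at h9
  linarith




/-! ### Functionals and functions on the half line -/

open SumSpace

/-- Lebesgue measure on the half line `(0, ∞)`. -/
abbrev hl : Measure ℝ := volume.restrict (Set.Ioi 0)

/-- the unit interval -/
abbrev uI : Set ℝ := Set.Ioc 0 1

lemma hl_apply {A : Set ℝ} (hA : MeasurableSet A) : hl (A ∩ uI) = volume (A ∩ uI) := by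
  rw [Measure.restrict_apply (hA.inter measurableSet_Ioc)]
  congr 1
  ext t
  simp only [Set.mem_inter_iff, Set.mem_Ioc, Set.mem_Ioi]
  tauto

lemma hl_uI : hl uI = 1 := by
  have := hl_apply MeasurableSet.univ
  rw [Set.univ_inter] at this
  rw [this]
  simp

lemma hl_ne_top (A : Set ℝ) : hl (A ∩ uI) ≠ ⊤ := by
  have : hl (A ∩ uI) ≤ hl uI := measure_mono Set.inter_subset_right
  rw [hl_uI] at this
  exact (this.trans_lt ENNReal.one_lt_top).ne

lemma integrableOn_val (x : SumSpace hl) : IntegrableOn (val x) uI hl := by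
  obtain ⟨u, v, h1, -⟩ := exists_decomp x one_pos
  have hu : Integrable (u : ℝ → ℝ) hl := by
    have := Lp.memLp u
    rwa [memLp_one_iff_integrable] at this
  have hv : IntegrableOn (v : ℝ → ℝ) uI hl := by
    have h2 := (Lp.memLp v).restrict uI
    have : IsFiniteMeasure (hl.restrict uI) := ⟨by
      rw [Measure.restrict_apply_univ, hl_uI]; exact ENNReal.one_lt_top⟩
    exact (h2.mono_exponent (p := 1) le_top).integrable le_rfl
  have h3 : (val x : ℝ → ℝ) =ᵐ[hl] fun t => (u : ℝ → ℝ) t + (v : ℝ → ℝ) t := by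
    rw [h1]
    exact AEEqFun.coeFn_add _ _
  refine (hu.integrableOn.add hv).congr ?_
  exact Filter.EventuallyEq.symm (ae_restrict_of_ae h3)

lemma ae_norm_le_top (v : Lp ℝ ⊤ hl) : ∀ᵐ t ∂hl, ‖(v : ℝ → ℝ) t‖ ≤ ‖v‖ := by
  have h3 := ae_le_eLpNormEssSup (f := (v : ℝ → ℝ)) (μ := hl)
  filter_upwards [h3] with t ht
  have h5 : eLpNormEssSup (v : ℝ → ℝ) hl ≠ ⊤ := by
    have := Lp.eLpNorm_ne_top v
    rwa [eLpNorm_exponent_top] at this
  rw [Lp.norm_def, eLpNorm_exponent_top]
  rw [← ofReal_norm] at ht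
  exact (ENNReal.ofReal_le_iff_le_toReal h5).mp ht

lemma integral_abs_le (x : SumSpace hl) : ∫ t in uI, |val x t| ∂hl ≤ ‖x‖ := by
  refine le_of_forall_pos_le_add fun ε hε => ?_
  obtain ⟨u, v, h1, h2⟩ := exists_decomp x hε
  have hu : Integrable (u : ℝ → ℝ) hl := by
    have := Lp.memLp u
    rwa [memLp_one_iff_integrable] at this
  have h3 : (val x : ℝ → ℝ) =ᵐ[hl] fun t => (u : ℝ → ℝ) t + (v : ℝ → ℝ) t := by
    rw [h1]
    exact AEEqFun.coeFn_add _ _
  have hfin : IsFiniteMeasure (hl.restrict uI) := ⟨by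
      rw [Measure.restrict_apply_univ, hl_uI]; exact ENNReal.one_lt_top⟩
  have h4 : ∀ᵐ t ∂(hl.restrict uI), |val x t| ≤ |(u : ℝ → ℝ) t| + ‖v‖ := by
    filter_upwards [ae_restrict_of_ae h3, ae_restrict_of_ae (ae_norm_le_top v)] with t ht1 ht2
    rw [ht1]
    calc |(u : ℝ → ℝ) t + (v : ℝ → ℝ) t| ≤ |(u : ℝ → ℝ) t| + |(v : ℝ → ℝ) t| := abs_add_le _ _
      _ ≤ _ := by gcongr; exact ht2
  have h5 : ∫ t in uI, |val x t| ∂hl ≤ ∫ t in uI, (|(u : ℝ → ℝ) t| + ‖v‖) ∂hl := by
    refine integral_mono_ae (integrableOn_val x).abs (hu.abs.integrableOn.add (integrable_const _)) h4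
  have h6 : ∫ t in uI, (|(u : ℝ → ℝ) t| + ‖v‖) ∂hl = (∫ t in uI, |(u : ℝ → ℝ) t| ∂hl) + ‖v‖ := by
    rw [integral_add hu.abs.integrableOn (integrable_const _)]
    congr 1
    rw [integral_const]
    simp only [MeasurableSet.univ, measureReal_restrict_apply, Set.univ_inter, smul_eq_mul]
    rw [measureReal_def, hl_uI]
    simp
  have h7 : ∫ t in uI, |(u : ℝ → ℝ) t| ∂hl ≤ ‖u‖ := by
    have h8 : ∫ t in uI, |(u : ℝ → ℝ) t| ∂hl ≤ ∫ t, |(u : ℝ → ℝ) t| ∂hl :=
      setIntegral_le_integral hu.abs (Eventually.of_forall fun t => abs_nonneg _)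
    have h9 : ∫ t, |(u : ℝ → ℝ) t| ∂hl = ‖u‖ := by
      rw [L1.norm_eq_integral_norm]
      rfl
    linarith
  linarith

/-- The functional `x ↦ ∫_{A ∩ (0,1]} x`. -/
def phi (A : Set ℝ) : StrongDual ℝ (SumSpace hl) :=
  LinearMap.mkContinuous
    { toFun := fun x => ∫ t in A ∩ uI, val x t ∂hl
      map_add' := fun x y => by
        have hx := (integrableOn_val x).mono_set (Set.inter_subset_right : A ∩ uI ⊆ uI)
        have hy := (integrableOn_val y).mono_set (Set.inter_subset_right : A ∩ uI ⊆ uI)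
        rw [← integral_add hx hy]
        apply integral_congr_ae
        apply ae_restrict_of_ae
        rw [map_add]
        exact AEEqFun.coeFn_add _ _
      map_smul' := fun c x => by
        rw [RingHom.id_apply, ← integral_smul]
        apply integral_congr_ae
        apply ae_restrict_of_ae
        rw [map_smul]
        exact AEEqFun.coeFn_smul _ _ } 1 (fun x => by
          rw [one_mul]
          calc ‖∫ t in A ∩ uI, val x t ∂hl‖ ≤ ∫ t in A ∩ uI, ‖val x t‖ ∂hl := norm_integral_le_integral_norm _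
            _ ≤ ∫ t in uI, ‖val x t‖ ∂hl := by
              refine setIntegral_mono_set (integrableOn_val x).norm (Eventually.of_forall fun t => norm_nonneg _) ?_
              exact Eventually.of_forall Set.inter_subset_right
            _ ≤ ‖x‖ := integral_abs_le x)

lemma phi_apply (A : Set ℝ) (x : SumSpace hl) : phi A x = ∫ t in A ∩ uI, val x t ∂hl := rfl

lemma sum_abs_phi_le {ι : Type*} [Fintype ι] (A : ι → Set ℝ) (hA : ∀ i, MeasurableSet (A i))
    (hd : Pairwise (Function.onFun Disjoint A)) (x : SumSpace hl) : ∑ i, |phi (A i) x| ≤ ‖x‖ := by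
  calc ∑ i, |phi (A i) x| ≤ ∑ i, ∫ t in A i ∩ uI, |val x t| ∂hl := by
        refine Finset.sum_le_sum fun i _ => ?_
        rw [phi_apply]
        exact abs_integral_le_integral_abs
    _ = ∫ t in ⋃ i, (A i ∩ uI), |val x t| ∂hl := by
        rw [integral_iUnion_fintype]
        · exact fun i => (hA i).inter measurableSet_Ioc
        · intro i j hij
          exact (hd hij).mono Set.inter_subset_left Set.inter_subset_left
        · intro i
          exact ((integrableOn_val x).mono_set (Set.inter_subset_right : A i ∩ uI ⊆ uI)).abs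
    _ ≤ ∫ t in uI, |val x t| ∂hl := by
        refine setIntegral_mono_set (integrableOn_val x).abs (Eventually.of_forall fun t => abs_nonneg _) ?_
        exact Eventually.of_forall (Set.iUnion_subset fun i => Set.inter_subset_right)
    _ ≤ ‖x‖ := integral_abs_le x

open Classical in
/-- The indicator function of `A ∩ (0,1]` in `L₁`. -/
def chi (A : Set ℝ) : Lp ℝ 1 hl :=
  if h : MeasurableSet A then indicatorConstLp 1 (h.inter measurableSet_Ioc : MeasurableSet (A ∩ uI)) (hl_ne_top A) (1 : ℝ) else 0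

lemma chi_eq {A : Set ℝ} (h : MeasurableSet A) :
    chi A = indicatorConstLp 1 (h.inter measurableSet_Ioc : MeasurableSet (A ∩ uI)) (hl_ne_top A) (1 : ℝ) := by
  rw [chi, dif_pos h]

/-- Lebesgue measure of `A ∩ (0,1]` -/
def vol (A : Set ℝ) : ℝ := volume.real (A ∩ uI)

lemma norm_chi {A : Set ℝ} (h : MeasurableSet A) : ‖chi A‖ = vol A := by
  rw [chi_eq h, norm_indicatorConstLp one_ne_zero ENNReal.one_ne_top]
  simp only [norm_one, ENNReal.toReal_one, div_one, Real.rpow_one, one_mul]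
  rw [vol, measureReal_def, measureReal_def, hl_apply h]

lemma chi_union {A B : Set ℝ} (hA : MeasurableSet A) (hB : MeasurableSet B) (h : Disjoint A B) :
    chi (A ∪ B) = chi A + chi B := by
  apply Lp.ext
  rw [chi_eq hA, chi_eq hB, chi_eq (hA.union hB)]
  refine (indicatorConstLp_coeFn).trans ?_
  refine EventuallyEq.trans ?_ (Lp.coeFn_add _ _).symm
  filter_upwards [indicatorConstLp_coeFn (p := 1) (hs := (hA.inter measurableSet_Ioc : MeasurableSet (A ∩ uI))) (hμs := hl_ne_top A) (c := (1:ℝ)), indicatorConstLp_coeFn (p := 1) (hs := (hB.inter measurableSet_Ioc : MeasurableSet (B ∩ uI))) (hμs := hl_ne_top B) (c := (1:ℝ))] with t h1 h2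
  rw [Pi.add_apply, h1, h2, Set.union_inter_distrib_right, Set.indicator_union_of_disjoint]
  exact h.mono Set.inter_subset_left Set.inter_subset_left

lemma phi_chi {A B : Set ℝ} (hA : MeasurableSet A) (hB : MeasurableSet B) :
    phi A (ofL1 (chi B)) = vol (A ∩ B) := by
  rw [phi_apply, val_ofL1, chi_eq hB]
  have h1 : ∫ t in A ∩ uI, ((indicatorConstLp 1 (hB.inter measurableSet_Ioc : MeasurableSet (B ∩ uI)) (hl_ne_top B) (1 : ℝ) : Lp ℝ 1 hl) : ℝ → ℝ) t ∂hl
      = ∫ t in A ∩ uI, (B ∩ uI).indicator (fun _ => (1:ℝ)) t ∂hl := by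
    apply integral_congr_ae
    apply ae_restrict_of_ae
    exact indicatorConstLp_coeFn
  refine h1.trans ?_
  rw [setIntegral_indicator (hB.inter measurableSet_Ioc)]
  rw [setIntegral_const, smul_eq_mul, mul_one, vol]
  have h2 : A ∩ uI ∩ (B ∩ uI) = (A ∩ B) ∩ uI := by
    ext t; simp only [Set.mem_inter_iff]; tauto
  rw [h2, measureReal_def, measureReal_def, hl_apply (hA.inter hB)]




/-! ### The tree -/


lemma vol_nonneg (A : Set ℝ) : 0 ≤ vol A := measureReal_nonneg

lemma vol_univ : vol Set.univ = 1 := by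
  rw [vol, Set.univ_inter, measureReal_def]; simp

lemma vol_mono {A B : Set ℝ} (h : A ⊆ B) : vol A ≤ vol B := by
  refine measureReal_mono (Set.inter_subset_inter_left _ h) ?_
  have : volume (B ∩ uI) ≤ volume uI := measure_mono Set.inter_subset_right
  refine (this.trans_lt ?_).ne
  simp

lemma vol_union {A B : Set ℝ} (hA : MeasurableSet A) (hB : MeasurableSet B) (h : Disjoint A B) :
    vol (A ∪ B) = vol A + vol B := by
  have h2 : chi (A ∪ B) = chi A + chi B := chi_union hA hB h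
  have h3 := phi_chi (A := Set.univ) MeasurableSet.univ (hA.union hB)
  rw [h2, map_add, map_add, phi_chi MeasurableSet.univ hA, phi_chi MeasurableSet.univ hB] at h3
  simp only [Set.univ_inter] at h3
  exact h3.symm

lemma vol_Ioc {a b : ℝ} (ha : 0 ≤ a) (hb : b ≤ 1) (hab : a ≤ b) : vol (Set.Ioc a b) = b - a := by
  have : Set.Ioc a b ∩ uI = Set.Ioc a b := by
    apply Set.inter_eq_left.mpr
    intro t ht
    exact ⟨ha.trans_lt ht.1, ht.2.trans hb⟩
  rw [vol, this, measureReal_def, Real.volume_Ioc, ENNReal.toReal_ofReal (by linarith)]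

lemma split {J : Type*} [Fintype J] (m : J → Set ℝ → ℝ) (L : J → ℝ)
    (hadd : ∀ j A B, MeasurableSet A → MeasurableSet B → Disjoint A B → m j (A ∪ B) = m j A + m j B)
    (hbd : ∀ j A, MeasurableSet A → |m j A| ≤ L j * vol A) (η : ℝ) (hη : 0 < η) :
    ∃ U, MeasurableSet U ∧ ∀ j, |m j U - m j Set.univ / 2| ≤ η := by
  have hempty : ∀ j, m j ∅ = 0 := by
    intro j
    have := hadd j ∅ ∅ MeasurableSet.empty MeasurableSet.empty (by simp)
    simp at this
    exact this
  -- total constant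
  set S : ℝ := ∑ j, (L j)^2 with hS
  have hS0 : 0 ≤ S := Finset.sum_nonneg fun j _ => sq_nonneg _
  obtain ⟨M, hM1, hM2⟩ : ∃ M : ℕ, 0 < M ∧ S / M ≤ (2 * η)^2 := by
    obtain ⟨M, hM⟩ := exists_nat_gt (S / (2 * η)^2)
    have hMpos : (0:ℝ) < M := lt_of_le_of_lt (by positivity) hM
    refine ⟨M, by exact_mod_cast hMpos, ?_⟩
    rw [div_lt_iff₀ (by positivity)] at hM
    rw [div_le_iff₀ hMpos]
    linarith
  have hMpos : (0:ℝ) < M := by exact_mod_cast hM1
  have claim : ∀ n : ℕ, n ≤ M → ∃ U, MeasurableSet U ∧ U ⊆ Set.Ioc (0:ℝ) (n / M) ∧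
      ∑ j, (2 * m j U - m j (Set.Ioc (0:ℝ) (n / M)))^2 ≤ n * (S / M^2) := by
    intro n
    induction n with
    | zero =>
      intro _
      refine ⟨∅, MeasurableSet.empty, by simp, ?_⟩
      simp [hempty]
    | succ n ih =>
      intro hn
      obtain ⟨U, hU1, hU2, hU3⟩ := ih (by omega)
      set I : Set ℝ := Set.Ioc ((n:ℝ) / M) ((n + 1 : ℕ) / M) with hI
      have hle : (n:ℝ) / M ≤ ((n + 1 : ℕ) : ℝ) / M := by
        gcongr
        simp
      have hunion : Set.Ioc (0:ℝ) ((n + 1 : ℕ) / M) = Set.Ioc (0:ℝ) (n / M) ∪ I := by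
        rw [hI, Set.Ioc_union_Ioc_eq_Ioc (by positivity) hle]
      have hdisj : Disjoint (Set.Ioc (0:ℝ) (n / M)) I := by
        rw [Set.disjoint_left]
        intro t ht1 ht2
        exact absurd ht1.2 (not_le.mpr ht2.1)
      have hdisjU : Disjoint U I := hdisj.mono_left hU2
      have hvolI : vol I = 1 / M := by
        rw [hI, vol_Ioc (by positivity) _ hle]
        · push_cast
          field_simp
          ring
        · rw [div_le_one hMpos]
          exact_mod_cast hn
      have hb : ∀ j, (m j I)^2 ≤ (L j)^2 / M^2 := by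
        intro j
        have h1 := hbd j I measurableSet_Ioc
        rw [hvolI] at h1
        have h2 : (m j I)^2 = |m j I|^2 := (sq_abs _).symm
        rw [h2]
        calc |m j I|^2 ≤ (L j * (1 / M))^2 := by gcongr
          _ = (L j)^2 / M^2 := by ring
      have hbsum : ∑ j, (m j I)^2 ≤ S / M^2 := by
        calc ∑ j, (m j I)^2 ≤ ∑ j, (L j)^2 / M^2 := Finset.sum_le_sum fun j _ => hb j
          _ = S / M^2 := by rw [hS, Finset.sum_div]
      have hmadd : ∀ j, m j (Set.Ioc (0:ℝ) ((n + 1 : ℕ) / M)) = m j (Set.Ioc (0:ℝ) (n / M)) + m j I := by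
        intro j
        rw [hunion]
        exact hadd j _ _ measurableSet_Ioc measurableSet_Ioc hdisj
      rcases le_or_gt (∑ j, (2 * m j U - m j (Set.Ioc (0:ℝ) (n / M))) * m j I) 0 with hs | hs
      · refine ⟨U ∪ I, hU1.union measurableSet_Ioc, ?_, ?_⟩
        · rw [hunion]
          exact Set.union_subset_union_left _ hU2
        · have h1 : ∀ j, (2 * m j (U ∪ I) - m j (Set.Ioc (0:ℝ) ((n + 1 : ℕ) / M)))^2
              = (2 * m j U - m j (Set.Ioc (0:ℝ) (n / M)))^2 + 2 * ((2 * m j U - m j (Set.Ioc (0:ℝ) (n / M))) * m j I) + (m j I)^2 := by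
            intro j
            rw [hmadd, hadd j U I hU1 measurableSet_Ioc hdisjU]
            ring
          simp_rw [h1]
          rw [Finset.sum_add_distrib, Finset.sum_add_distrib, ← Finset.mul_sum]
          push_cast
          linarith
      · refine ⟨U, hU1, ?_, ?_⟩
        · rw [hunion]
          exact hU2.trans Set.subset_union_left
        · have h1 : ∀ j, (2 * m j U - m j (Set.Ioc (0:ℝ) ((n + 1 : ℕ) / M)))^2
              = (2 * m j U - m j (Set.Ioc (0:ℝ) (n / M)))^2 - 2 * ((2 * m j U - m j (Set.Ioc (0:ℝ) (n / M))) * m j I) + (m j I)^2 := by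
            intro j
            rw [hmadd]
            ring
          simp_rw [h1]
          rw [Finset.sum_add_distrib, Finset.sum_sub_distrib, ← Finset.mul_sum]
          push_cast
          linarith
  obtain ⟨U, hU1, _, hU3⟩ := claim M le_rfl
  refine ⟨U, hU1, fun j => ?_⟩
  rw [div_self hMpos.ne'] at hU3
  have h1 : m j Set.univ = m j (Set.Ioc (0:ℝ) 1) := by
    have h2 := hadd j (Set.Ioc (0:ℝ) 1) (Set.Ioc (0:ℝ) 1)ᶜ measurableSet_Ioc measurableSet_Ioc.compl disjoint_compl_right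
    rw [Set.union_compl_self] at h2
    have h3 := hbd j (Set.Ioc (0:ℝ) 1)ᶜ measurableSet_Ioc.compl
    have h4 : vol (Set.Ioc (0:ℝ) 1)ᶜ = 0 := by
      rw [vol, Set.compl_inter_self]
      simp
    rw [h4, mul_zero] at h3
    have h5 : m j (Set.Ioc (0:ℝ) 1)ᶜ = 0 := abs_nonpos_iff.mp h3
    rw [h2, h5, add_zero]
  have h2 : (2 * m j U - m j Set.univ)^2 ≤ (2 * η)^2 := by
    rw [h1]
    calc (2 * m j U - m j (Set.Ioc (0:ℝ) 1))^2 ≤ ∑ j, (2 * m j U - m j (Set.Ioc (0:ℝ) 1))^2 :=
          Finset.single_le_sum (f := fun j => (2 * m j U - m j (Set.Ioc (0:ℝ) 1))^2) (fun j _ => sq_nonneg _) (Finset.mem_univ j)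
      _ ≤ M * (S / M^2) := hU3
      _ = S / M := by field_simp
      _ ≤ (2 * η)^2 := hM2
  have h3 := abs_le_of_sq_le_sq h2 (by positivity)
  have h4 : m j U - m j Set.univ / 2 = (2 * m j U - m j Set.univ) / 2 := by ring
  rw [h4, abs_div, abs_two]
  linarith

lemma dep_choice {α : ℕ → Type*} [∀ n, Inhabited (α n)] (P : ℕ → (∀ n, α n) → Prop)
    (hloc : ∀ n f g, (∀ j, j < n → f j = g j) → P n f → P n g) (h0 : ∀ f, P 0 f)
    (hstep : ∀ n f, P n f → ∃ x : α n, P (n + 1) (Function.update f n x)) : ∃ f, ∀ n, P n f := by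
  classical
  choose! x hx using hstep
  let F : ℕ → (∀ n, α n) := fun n => Nat.rec (fun n => default) (fun n f => Function.update f n (x n f)) n
  have hF0 : F 0 = fun n => default := rfl
  have hFs : ∀ n, F (n + 1) = Function.update (F n) n (x n (F n)) := fun n => rfl
  have hP : ∀ n, P n (F n) := by
    intro n
    induction n with
    | zero => exact h0 _
    | succ n ih =>
      rw [hFs]
      exact hx n _ ih
  refine ⟨fun n => F (n + 1) n, fun n => hloc n (F n) _ ?_ (hP n)⟩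
  induction n with
  | zero => intro j hj; omega
  | succ n ih =>
    intro j hj
    rcases Nat.lt_succ_iff_lt_or_eq.mp hj with h | rfl
    · rw [hFs, Function.update_of_ne h.ne]
      exact ih j h
    · rfl



variable {Y : Type*} [NormedAddCommGroup Y] [NormedSpace ℝ Y]

/-- The nodes of the tree of sets. -/
def node (U : ℕ → Set ℝ) (n : ℕ) (σ : ℕ → Bool) : Set ℝ := {t | ∀ j, j < n → (t ∈ U j ↔ σ j = true)}

/-- `B` or its complement -/
def side (B : Set ℝ) (b : Bool) : Set ℝ := {t | t ∈ B ↔ b = true}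

lemma side_true (B : Set ℝ) : side B true = B := by ext t; simp [side]
lemma side_false (B : Set ℝ) : side B false = Bᶜ := by ext t; simp [side]

lemma side_meas {B : Set ℝ} (hB : MeasurableSet B) (b : Bool) : MeasurableSet (side B b) := by
  cases b
  · rw [side_false]; exact hB.compl
  · rw [side_true]; exact hB

lemma node_zero (U : ℕ → Set ℝ) (σ : ℕ → Bool) : node U 0 σ = Set.univ := by
  ext t; simp [node]

lemma node_succ (U : ℕ → Set ℝ) (n : ℕ) (σ : ℕ → Bool) :
    node U (n + 1) σ = node U n σ ∩ side (U n) (σ n) := by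
  ext t
  simp only [node, side, Set.mem_ofPred_eq, Set.mem_inter_iff]
  constructor
  · intro h
    exact ⟨fun j hj => h j (by omega), h n (by omega)⟩
  · rintro ⟨h1, h2⟩ j hj
    rcases Nat.lt_succ_iff_lt_or_eq.mp hj with h | rfl
    · exact h1 j h
    · exact h2

lemma node_congr {U V : ℕ → Set ℝ} {n : ℕ} {σ τ : ℕ → Bool} (h1 : ∀ j, j < n → U j = V j)
    (h2 : ∀ j, j < n → σ j = τ j) : node U n σ = node V n τ := by
  ext t
  simp only [node, Set.mem_ofPred_eq]
  constructor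
  · intro h j hj
    rw [← h1 j hj, ← h2 j hj]
    exact h j hj
  · intro h j hj
    rw [h1 j hj, h2 j hj]
    exact h j hj

lemma node_meas {U : ℕ → Set ℝ} {n : ℕ} (h : ∀ j, j < n → MeasurableSet (U j)) (σ : ℕ → Bool) :
    MeasurableSet (node U n σ) := by
  induction n with
  | zero => rw [node_zero]; exact MeasurableSet.univ
  | succ n ih =>
    rw [node_succ]
    exact (ih fun j hj => h j (by omega)).inter (side_meas (h n (by omega)) _)

/-- extend a finite word by `false` -/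
def ext' {n : ℕ} (s : Fin n → Bool) : ℕ → Bool := fun j => if h : j < n then s ⟨j, h⟩ else false

lemma ext'_lt {n : ℕ} (s : Fin n → Bool) {j : ℕ} (h : j < n) : ext' s j = s ⟨j, h⟩ := by
  simp [ext', h]

lemma node_disj {U : ℕ → Set ℝ} {n : ℕ} : Pairwise (Function.onFun Disjoint (fun s : Fin n → Bool => node U n (ext' s))) := by
  intro s s' hss
  rw [Function.onFun, Set.disjoint_left]
  intro t ht1 ht2
  apply hss
  funext i
  have h1 := ht1 i i.2
  have h2 := ht2 i i.2
  rw [ext'_lt s i.2] at h1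
  rw [ext'_lt s' i.2] at h2
  have h3 : s i = true ↔ s' i = true := h1.symm.trans h2
  cases h4 : s i <;> cases h5 : s' i <;> simp_all

/-- The data attached to level `n`. -/
abbrev Dat (Y : Type*) (n : ℕ) : Type _ := Set ℝ × ((Fin (n + 1) → Bool) → Y)

instance (n : ℕ) : Inhabited (Dat Y n) := ⟨(∅, fun _ => 0)⟩

/-- The inductive requirement. -/
structure Good (e : StrongDual ℝ Y ≃L[ℝ] SumSpace hl) (C : ℝ) (n : ℕ) (f : ∀ n, Dat Y n) : Prop where
  meas : ∀ j, j < n → MeasurableSet (f j).1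
  bdd : ∀ j, j < n → ∀ ε : (Fin (j + 1) → Bool) → Bool, ‖∑ s, sg (ε s) • (f j).2 s‖ ≤ C
  lower : ∀ σ, 3 / 4 < 2 ^ n * vol (node (fun j => (f j).1) n σ)
  upper : ∀ σ, 2 ^ n * vol (node (fun j => (f j).1) n σ) < 2
  pair : ∀ σ, ∀ k, k < n → 1 / 2 < 2 ^ n * (e.symm (ofL1 (chi (node (fun j => (f j).1) n σ)))) ((f k).2 (fun i => σ i))

lemma exists_good (e : StrongDual ℝ Y ≃L[ℝ] SumSpace hl) (C : ℝ)
    (hC : ‖(e : StrongDual ℝ Y →L[ℝ] SumSpace hl)‖ ≤ C) (hC0 : 0 < C) :
    ∃ f : ∀ n, Dat Y n, ∀ n, Good e C n f := by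
  apply dep_choice (fun n f => Good e C n f)
  · -- locality
    intro n f g hfg hf
    have hnode : ∀ σ, node (fun j => (f j).1) n σ = node (fun j => (g j).1) n σ := fun σ =>
      node_congr (fun j hj => by rw [hfg j hj]) (fun _ _ => rfl)
    refine ⟨fun j hj => ?_, fun j hj => ?_, fun σ => ?_, fun σ => ?_, fun σ k hk => ?_⟩
    · rw [← hfg j hj]; exact hf.meas j hj
    · rw [← hfg j hj]; exact hf.bdd j hj
    · rw [← hnode]; exact hf.lower σ
    · rw [← hnode]; exact hf.upper σ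
    · rw [← hnode, ← hfg k hk]; exact hf.pair σ k hk
  · intro f
    refine ⟨fun j hj => by omega, fun j hj => by omega, fun σ => ?_, fun σ => ?_, fun σ k hk => by omega⟩
    · rw [node_zero, vol_univ]; norm_num
    · rw [node_zero, vol_univ]; norm_num
  · intro n f hf
    set A : (ℕ → Bool) → Set ℝ := fun σ => node (fun j => (f j).1) n σ with hA
    have hAmeas : ∀ σ, MeasurableSet (A σ) := fun σ => node_meas hf.meas σ
    -- the set functions
    let m : ((Fin n → Bool) × Option (Fin n)) → Set ℝ → ℝ := fun j B =>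
      match j.2 with
      | none => vol (A (ext' j.1) ∩ B)
      | some k => (e.symm (ofL1 (chi (A (ext' j.1) ∩ B)))) ((f k).2 (fun i => ext' j.1 i))
    let L : ((Fin n → Bool) × Option (Fin n)) → ℝ := fun j =>
      match j.2 with
      | none => 1
      | some k => ‖(e.symm : SumSpace hl →L[ℝ] StrongDual ℝ Y)‖ * ‖(f k).2 (fun i => ext' j.1 i)‖
    have hadd : ∀ j B B', MeasurableSet B → MeasurableSet B' → Disjoint B B' → m j (B ∪ B') = m j B + m j B' := by
      rintro ⟨s, k⟩ B B' hB hB' hd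
      have hd' : Disjoint (A (ext' s) ∩ B) (A (ext' s) ∩ B') := hd.mono Set.inter_subset_right Set.inter_subset_right
      cases k with
      | none =>
        simp only [m]
        rw [Set.inter_union_distrib_left, vol_union ((hAmeas _).inter hB) ((hAmeas _).inter hB') hd']
      | some k =>
        simp only [m]
        rw [Set.inter_union_distrib_left, chi_union ((hAmeas _).inter hB) ((hAmeas _).inter hB') hd', map_add, map_add]
        rfl
    have hbd : ∀ j B, MeasurableSet B → |m j B| ≤ L j * vol B := by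
      rintro ⟨s, k⟩ B hB
      cases k with
      | none =>
        simp only [m, L]
        rw [abs_of_nonneg (vol_nonneg _), one_mul]
        exact vol_mono Set.inter_subset_right
      | some k =>
        simp only [m, L]
        set y := (f k).2 (fun i => ext' s i)
        have h1 : |(e.symm (ofL1 (chi (A (ext' s) ∩ B)))) y| ≤ ‖e.symm (ofL1 (chi (A (ext' s) ∩ B)))‖ * ‖y‖ := by
          rw [← Real.norm_eq_abs]
          exact ContinuousLinearMap.le_opNorm _ _
        have h2 : ‖e.symm (ofL1 (chi (A (ext' s) ∩ B)))‖ ≤ ‖(e.symm : SumSpace hl →L[ℝ] StrongDual ℝ Y)‖ * ‖(ofL1 (chi (A (ext' s) ∩ B)) : SumSpace hl)‖ :=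
          ContinuousLinearMap.le_opNorm (e.symm : SumSpace hl →L[ℝ] StrongDual ℝ Y) _
        have h3 : ‖(ofL1 (chi (A (ext' s) ∩ B)) : SumSpace hl)‖ ≤ vol B := by
          refine (norm_ofL1_le _).trans ?_
          rw [norm_chi ((hAmeas _).inter hB)]
          exact vol_mono Set.inter_subset_right
        calc |(e.symm (ofL1 (chi (A (ext' s) ∩ B)))) y| ≤ ‖e.symm (ofL1 (chi (A (ext' s) ∩ B)))‖ * ‖y‖ := h1
          _ ≤ (‖(e.symm : SumSpace hl →L[ℝ] StrongDual ℝ Y)‖ * vol B) * ‖y‖ := by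
            gcongr
            exact h2.trans (by gcongr)
          _ = ‖(e.symm : SumSpace hl →L[ℝ] StrongDual ℝ Y)‖ * ‖y‖ * vol B := by ring
    -- choose η
    obtain ⟨η, hη0, hη1, hη2, hη3⟩ : ∃ η : ℝ, 0 < η ∧
        (∀ s : Fin n → Bool, 3 / 4 < 2 ^ n * vol (A (ext' s)) - 2 ^ (n + 1) * η) ∧
        (∀ s : Fin n → Bool, 2 ^ n * vol (A (ext' s)) + 2 ^ (n + 1) * η < 2) ∧
        (∀ (s : Fin n → Bool) (k : Fin n), 1 / 2 < 2 ^ n * (e.symm (ofL1 (chi (A (ext' s))))) ((f k).2 (fun i => ext' s i)) - 2 ^ (n + 1) * η) := by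
      have hlim : Tendsto (fun η : ℝ => (2:ℝ) ^ (n + 1) * η) (𝓝[>] 0) (𝓝 0) := by
        have : Tendsto (fun η : ℝ => (2:ℝ) ^ (n + 1) * η) (𝓝 0) (𝓝 ((2:ℝ) ^ (n + 1) * 0)) := tendsto_id.const_mul _
        rw [mul_zero] at this
        exact this.mono_left nhdsWithin_le_nhds
      have e1 : ∀ᶠ η in 𝓝[>] (0:ℝ), ∀ s : Fin n → Bool, 3 / 4 < 2 ^ n * vol (A (ext' s)) - 2 ^ (n + 1) * η := by
        rw [eventually_all]
        intro s
        have h1 : Tendsto (fun η : ℝ => 2 ^ n * vol (A (ext' s)) - 2 ^ (n + 1) * η) (𝓝[>] 0) (𝓝 (2 ^ n * vol (A (ext' s)) - 0)) :=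
          tendsto_const_nhds.sub hlim
        rw [sub_zero] at h1
        exact h1.eventually (lt_mem_nhds (hf.lower _))
      have e2 : ∀ᶠ η in 𝓝[>] (0:ℝ), ∀ s : Fin n → Bool, 2 ^ n * vol (A (ext' s)) + 2 ^ (n + 1) * η < 2 := by
        rw [eventually_all]
        intro s
        have h1 : Tendsto (fun η : ℝ => 2 ^ n * vol (A (ext' s)) + 2 ^ (n + 1) * η) (𝓝[>] 0) (𝓝 (2 ^ n * vol (A (ext' s)) + 0)) :=
          tendsto_const_nhds.add hlim
        rw [add_zero] at h1
        exact h1.eventually (gt_mem_nhds (hf.upper _))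
      have e3 : ∀ᶠ η in 𝓝[>] (0:ℝ), ∀ (s : Fin n → Bool) (k : Fin n), 1 / 2 < 2 ^ n * (e.symm (ofL1 (chi (A (ext' s))))) ((f k).2 (fun i => ext' s i)) - 2 ^ (n + 1) * η := by
        rw [eventually_all]
        intro s
        rw [eventually_all]
        intro k
        have h1 : Tendsto (fun η : ℝ => 2 ^ n * (e.symm (ofL1 (chi (A (ext' s))))) ((f k).2 (fun i => ext' s i)) - 2 ^ (n + 1) * η) (𝓝[>] 0) (𝓝 (2 ^ n * (e.symm (ofL1 (chi (A (ext' s))))) ((f k).2 (fun i => ext' s i)) - 0)) :=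
          tendsto_const_nhds.sub hlim
        rw [sub_zero] at h1
        exact h1.eventually (lt_mem_nhds (hf.pair _ k k.2))
      have e0 : ∀ᶠ η in 𝓝[>] (0:ℝ), 0 < η := self_mem_nhdsWithin
      obtain ⟨η, h0, h1, h2, h3⟩ := (e0.and (e1.and (e2.and e3))).exists
      exact ⟨η, h0, h1, h2, h3⟩
    obtain ⟨U, hU, hUm⟩ := split m L hadd hbd η hη0
    -- both sides are good
    have hside : ∀ j b, |m j (side U b) - m j Set.univ / 2| ≤ η := by
      intro j b
      cases b with
      | true => rw [side_true]; exact hUm j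
      | false =>
        rw [side_false]
        have h1 := hadd j U Uᶜ hU hU.compl disjoint_compl_right
        rw [Set.union_compl_self] at h1
        have h2 := hUm j
        rw [abs_le] at h2 ⊢
        constructor <;> linarith
    -- the new node sets
    have hnode : ∀ (z : (Fin (n + 1) → Bool) → Y) (σ : ℕ → Bool),
        node (fun j => (Function.update f n (U, z) j).1) (n + 1) σ = A (ext' (fun i : Fin n => σ i)) ∩ side U (σ n) := by
      intro z σ
      rw [node_succ]
      congr 1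
      · refine node_congr (fun j hj => ?_) (fun j hj => ?_)
        · rw [Function.update_of_ne hj.ne]
        · rw [ext'_lt _ hj]
      · rw [Function.update_self]
    set A' : (ℕ → Bool) → Set ℝ := fun σ => A (ext' (fun i : Fin n => σ i)) ∩ side U (σ n) with hA'
    have hA'meas : ∀ σ, MeasurableSet (A' σ) := fun σ => (hAmeas _).inter (side_meas hU _)
    have hA'low : ∀ σ, 3 / 4 < 2 ^ (n + 1) * vol (A' σ) := by
      intro σ
      have h1 := hside (fun i : Fin n => σ i, none) (σ n)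
      have h2 := hη1 (fun i : Fin n => σ i)
      simp only [m, Set.inter_univ] at h1
      rw [abs_le] at h1
      have h3 : (2:ℝ) ^ (n + 1) * (vol (A (ext' fun i : Fin n => σ i)) / 2 - η) ≤ 2 ^ (n + 1) * vol (A' σ) := by
        gcongr
        linarith [h1.1]
      have h4 : (2:ℝ) ^ (n + 1) * (vol (A (ext' fun i : Fin n => σ i)) / 2 - η) = 2 ^ n * vol (A (ext' fun i : Fin n => σ i)) - 2 ^ (n + 1) * η := by
        rw [pow_succ]; ring
      linarith
    have hA'up : ∀ σ, 2 ^ (n + 1) * vol (A' σ) < 2 := by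
      intro σ
      have h1 := hside (fun i : Fin n => σ i, none) (σ n)
      have h2 := hη2 (fun i : Fin n => σ i)
      simp only [m, Set.inter_univ] at h1
      rw [abs_le] at h1
      have h3 : 2 ^ (n + 1) * vol (A' σ) ≤ (2:ℝ) ^ (n + 1) * (vol (A (ext' fun i : Fin n => σ i)) / 2 + η) := by
        gcongr
        linarith [h1.2]
      have h4 : (2:ℝ) ^ (n + 1) * (vol (A (ext' fun i : Fin n => σ i)) / 2 + η) = 2 ^ n * vol (A (ext' fun i : Fin n => σ i)) + 2 ^ (n + 1) * η := by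
        rw [pow_succ]; ring
      linarith
    have hA'pair : ∀ σ, ∀ k, k < n → 1 / 2 < 2 ^ (n + 1) * (e.symm (ofL1 (chi (A' σ)))) ((f k).2 (fun i => σ i)) := by
      intro σ k hk
      have h1 := hside (fun i : Fin n => σ i, some ⟨k, hk⟩) (σ n)
      have h2 := hη3 (fun i : Fin n => σ i) ⟨k, hk⟩
      have h0 : (fun i : Fin (k + 1) => ext' (fun i : Fin n => σ i) i) = fun i : Fin (k + 1) => σ i := by
        funext i
        rw [ext'_lt _ (by omega)]
      simp only [m, Set.inter_univ] at h1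
      rw [abs_le] at h1
      simp only at h2
      rw [h0] at h1 h2
      have h3 : (2:ℝ) ^ (n + 1) * ((e.symm (ofL1 (chi (A (ext' fun i : Fin n => σ i))))) ((f k).2 (fun i => σ i)) / 2 - η) ≤ 2 ^ (n + 1) * (e.symm (ofL1 (chi (A' σ)))) ((f k).2 (fun i => σ i)) := by
        gcongr
        linarith [h1.1]
      have h4 : (2:ℝ) ^ (n + 1) * ((e.symm (ofL1 (chi (A (ext' fun i : Fin n => σ i))))) ((f k).2 (fun i => σ i)) / 2 - η) = 2 ^ n * (e.symm (ofL1 (chi (A (ext' fun i : Fin n => σ i))))) ((f k).2 (fun i => σ i)) - 2 ^ (n + 1) * η := by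
        rw [pow_succ]; ring
      linarith
    -- local reflexivity
    have hdisj : Pairwise (Function.onFun Disjoint (fun s : Fin (n + 1) → Bool => A' (ext' s))) := by
      have := node_disj (U := fun j => (Function.update f n (U, fun _ => (0:Y)) j).1) (n := n + 1)
      simpa only [hnode] using this
    let Φ : (Fin (n + 1) → Bool) → StrongDual ℝ (StrongDual ℝ Y) := fun s =>
      (phi (A' (ext' s))).comp (e : StrongDual ℝ Y →L[ℝ] SumSpace hl)
    let w : (Fin (n + 1) → Bool) → StrongDual ℝ Y := fun s =>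
      e.symm (ofL1 ((2:ℝ) ^ (n + 1) • chi (A' (ext' s))))
    have hΦ : ∀ ε : (Fin (n + 1) → Bool) → Bool, ‖∑ s, sg (ε s) • Φ s‖ ≤ C := by
      intro ε
      refine ContinuousLinearMap.opNorm_le_bound _ hC0.le fun g => ?_
      have h1 : (∑ s, sg (ε s) • Φ s) g = ∑ s, sg (ε s) * phi (A' (ext' s)) (e g) := by
        rw [sum_apply]
        rfl
      rw [h1]
      calc ‖∑ s, sg (ε s) * phi (A' (ext' s)) (e g)‖ ≤ ∑ s, ‖sg (ε s) * phi (A' (ext' s)) (e g)‖ := norm_sum_le _ _
        _ = ∑ s, |phi (A' (ext' s)) (e g)| := by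
          refine Finset.sum_congr rfl fun s _ => ?_
          rw [norm_mul, Real.norm_eq_abs, Real.norm_eq_abs]
          have : |sg (ε s)| = 1 := by unfold sg; split_ifs <;> simp
          rw [this, one_mul]
        _ ≤ ‖e g‖ := sum_abs_phi_le _ (fun s => hA'meas _) hdisj _
        _ ≤ ‖(e : StrongDual ℝ Y →L[ℝ] SumSpace hl)‖ * ‖g‖ := ContinuousLinearMap.le_opNorm (e : StrongDual ℝ Y →L[ℝ] SumSpace hl) g
        _ ≤ C * ‖g‖ := by gcongr
    obtain ⟨y, hy1, hy2⟩ := localRefl Φ C hC0 hΦ w (1/4) (by norm_num)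
    refine ⟨(U, y), ?_⟩
    have hyval : ∀ s : Fin (n + 1) → Bool, 1 / 2 < 2 ^ (n + 1) * (e.symm (ofL1 (chi (A' (ext' s))))) (y s) := by
      intro s
      have h1 := hy2 s
      have h2 : Φ s (w s) = 2 ^ (n + 1) * vol (A' (ext' s)) := by
        simp only [Φ, w, ContinuousLinearMap.comp_apply, ContinuousLinearEquiv.coe_coe, ContinuousLinearEquiv.apply_symm_apply]
        rw [map_smul, map_smul, phi_chi (hA'meas _) (hA'meas _), Set.inter_self, smul_eq_mul]
      have h3 : w s (y s) = 2 ^ (n + 1) * (e.symm (ofL1 (chi (A' (ext' s))))) (y s) := by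
        simp only [w]
        rw [map_smul, map_smul]
        rfl
      rw [h2, h3] at h1
      have := hA'low (ext' s)
      linarith
    refine ⟨fun j hj => ?_, fun j hj => ?_, fun σ => ?_, fun σ => ?_, fun σ k hk => ?_⟩
    · rcases Nat.lt_succ_iff_lt_or_eq.mp hj with h | rfl
      · rw [Function.update_of_ne h.ne]; exact hf.meas j h
      · rw [Function.update_self]; exact hU
    · rcases Nat.lt_succ_iff_lt_or_eq.mp hj with h | rfl
      · rw [Function.update_of_ne h.ne]; exact hf.bdd j h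
      · rw [Function.update_self]; exact hy1
    · rw [hnode]; exact hA'low σ
    · rw [hnode]; exact hA'up σ
    · rw [hnode]
      rcases Nat.lt_succ_iff_lt_or_eq.mp hk with h | rfl
      · rw [Function.update_of_ne h.ne]; exact hA'pair σ k h
      · rw [Function.update_self]
        have h1 := hyval (fun i => σ i)
        have h2 : A' (ext' fun i : Fin (k + 1) => σ i) = A' σ := by
          simp only [hA']
          have h3 : (fun i : Fin k => ext' (fun i : Fin (k + 1) => σ i) i) = fun i : Fin k => σ i := by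
            funext i
            rw [ext'_lt _ (by omega)]
          rw [h3, ext'_lt _ (by omega)]
        rw [h2] at h1
        exact h1


/-- The cluster functional along a branch. -/
lemma exists_branch (e : StrongDual ℝ Y ≃L[ℝ] SumSpace hl) (C : ℝ) (f : ∀ n, Dat Y n)
    (hf : ∀ n, Good e C n f) (σ : ℕ → Bool) :
    ∃ g : StrongDual ℝ Y, ‖g‖ ≤ 2 * ‖(e.symm : SumSpace hl →L[ℝ] StrongDual ℝ Y)‖ ∧
      ∀ k, 1 / 2 ≤ g ((f k).2 (fun i => σ i)) := by
  set K : ℝ := 2 * ‖(e.symm : SumSpace hl →L[ℝ] StrongDual ℝ Y)‖ with hK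
  let w : ℕ → StrongDual ℝ Y := fun n => (2:ℝ) ^ n • e.symm (ofL1 (chi (node (fun j => (f j).1) n σ)))
  have hw : ∀ n, ‖w n‖ ≤ K := by
    intro n
    have h1 : ‖e.symm (ofL1 (chi (node (fun j => (f j).1) n σ)))‖ ≤ ‖(e.symm : SumSpace hl →L[ℝ] StrongDual ℝ Y)‖ * ‖(ofL1 (chi (node (fun j => (f j).1) n σ)) : SumSpace hl)‖ :=
      ContinuousLinearMap.le_opNorm (e.symm : SumSpace hl →L[ℝ] StrongDual ℝ Y) _
    have h2 : ‖(ofL1 (chi (node (fun j => (f j).1) n σ)) : SumSpace hl)‖ ≤ vol (node (fun j => (f j).1) n σ) := by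
      refine (norm_ofL1_le _).trans ?_
      rw [norm_chi (node_meas (hf n).meas σ)]
    have h3 := (hf n).upper σ
    simp only [w]
    rw [norm_smul, norm_pow, Real.norm_ofNat]
    calc (2:ℝ) ^ n * ‖e.symm (ofL1 (chi (node (fun j => (f j).1) n σ)))‖ 
        ≤ 2 ^ n * (‖(e.symm : SumSpace hl →L[ℝ] StrongDual ℝ Y)‖ * vol (node (fun j => (f j).1) n σ)) := by
          gcongr
          exact h1.trans (by gcongr)
      _ = ‖(e.symm : SumSpace hl →L[ℝ] StrongDual ℝ Y)‖ * (2 ^ n * vol (node (fun j => (f j).1) n σ)) := by ring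
      _ ≤ ‖(e.symm : SumSpace hl →L[ℝ] StrongDual ℝ Y)‖ * 2 := by gcongr
      _ = K := by rw [hK]; ring
  have hcomp := WeakDual.isCompact_closedBall (𝕜 := ℝ) (E := Y) (0 : StrongDual ℝ Y) K
  obtain ⟨g, hg1, hg2⟩ := hcomp.exists_mapClusterPt (f := atTop) (u := fun n => StrongDual.toWeakDual (w n)) (by
    rw [le_principal_iff, mem_map]
    refine Eventually.of_forall fun n => ?_
    simp only [Set.mem_preimage, Metric.mem_closedBall, dist_zero_right]
    exact hw n)
  refine ⟨WeakDual.toStrongDual g, ?_, fun k => ?_⟩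
  · simpa using hg1
  · set y := (f k).2 (fun i => σ i) with hy
    have hcl : IsClosed {h : WeakDual ℝ Y | 1 / 2 ≤ h y} :=
      isClosed_le continuous_const (WeakDual.eval_continuous y)
    have hev : ∀ᶠ n in atTop, StrongDual.toWeakDual (w n) ∈ {h : WeakDual ℝ Y | 1 / 2 ≤ h y} := by
      filter_upwards [eventually_gt_atTop k] with n hn
      have h1 := (hf n).pair σ k hn
      change 1 / 2 ≤ w n y
      simp only [w]
      rw [smul_apply, smul_eq_mul]
      exact h1.le
    have : g ∈ {h : WeakDual ℝ Y | 1 / 2 ≤ h y} := by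
      have h2 : ClusterPt g (𝓟 {h : WeakDual ℝ Y | 1 / 2 ≤ h y}) := by
        have h3 : ClusterPt g (map (fun n => StrongDual.toWeakDual (w n)) atTop) := hg2
        exact h3.mono (by rw [le_principal_iff]; exact hev)
      exact hcl.closure_eq ▸ (mem_closure_iff_clusterPt.mpr h2)
    exact this

/-- `ℕ → Bool` is uncountable. -/
lemma uncountable_cantor : ¬ (Set.univ : Set (ℕ → Bool)).Countable := by
  intro h
  rw [Set.countable_univ_iff] at h
  have h1 := Cardinal.mk_le_aleph0_iff.mpr h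
  have h2 : Cardinal.mk (ℕ → Bool) = Cardinal.continuum := by
    rw [← Cardinal.power_def, Cardinal.mk_bool, Cardinal.mk_nat, Cardinal.two_power_aleph0]
  rw [h2] at h1
  exact absurd Cardinal.aleph0_lt_continuum (not_lt.mpr h1)

/-- In a separable space, an uncountable family has infinitely many members in a small ball. -/
lemma exists_infinite_ball {E : Type*} [NormedAddCommGroup E] [TopologicalSpace.SeparableSpace E]
    (u : (ℕ → Bool) → E) (r : ℝ) (hr : 0 < r) : ∃ u0 : E, {σ | ‖u σ - u0‖ ≤ r}.Infinite := by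
  by_contra hcon
  push Not at hcon
  apply uncountable_cantor
  obtain ⟨D, hD1, hD2⟩ := TopologicalSpace.exists_countable_dense E
  have h1 : (Set.univ : Set (ℕ → Bool)) ⊆ ⋃ d ∈ D, {σ | ‖u σ - d‖ ≤ r} := by
    intro σ _
    obtain ⟨d, hd1, hd2⟩ := hD2.exists_dist_lt (u σ) hr
    rw [Set.mem_iUnion₂]
    refine ⟨d, hd1, ?_⟩
    rw [dist_eq_norm] at hd2
    exact hd2.le
  refine Set.Countable.mono h1 ?_
  exact hD1.biUnion fun d _ => (hcon d).countable

/-- A finite set of branches is separated at some level. -/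
lemma exists_level (S : Finset (ℕ → Bool)) : ∃ n : ℕ, Set.InjOn (fun (σ : ℕ → Bool) => (fun i : Fin (n + 1) => σ i)) S := by
  classical
  have h1 : ∀ p : (ℕ → Bool) × (ℕ → Bool), ∃ n : ℕ, p.1 ≠ p.2 → p.1 n ≠ p.2 n := by
    intro p
    by_cases h : p.1 = p.2
    · exact ⟨0, fun h' => absurd h h'⟩
    · obtain ⟨n, hn⟩ := Function.ne_iff.mp h
      exact ⟨n, fun _ => hn⟩
  choose N hN using h1
  refine ⟨(S ×ˢ S).sup N, ?_⟩
  intro σ hσ τ hτ hst
  by_contra hne
  have h2 := hN (σ, τ) hne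
  have h3 : N (σ, τ) ≤ (S ×ˢ S).sup N := Finset.le_sup (f := N) (Finset.mem_product.mpr ⟨hσ, hτ⟩)
  have h4 := congrFun hst ⟨N (σ, τ), by omega⟩
  exact h2 h4

theorem main (e : StrongDual ℝ Y ≃L[ℝ] SumSpace hl) : False := by
  classical
  have hsep : TopologicalSpace.SeparableSpace (Lp ℝ 1 hl) := by
    have : Fact ((1:ENNReal) ≠ ⊤) := ⟨by simp⟩
    infer_instance
  set C : ℝ := ‖(e : StrongDual ℝ Y →L[ℝ] SumSpace hl)‖ + 1 with hC
  have hC0 : 0 < C := by positivity
  obtain ⟨f, hf⟩ := exists_good e C (by rw [hC]; linarith) hC0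
  set E' : ℝ := ‖(e.symm : SumSpace hl →L[ℝ] StrongDual ℝ Y)‖ with hE'
  choose g hg1 hg2 using exists_branch e C f hf
  -- the functionals on the sum space
  let D : ∀ n, (Fin (n + 1) → Bool) → StrongDual ℝ (SumSpace hl) := fun n s =>
    LinearMap.mkContinuous
      { toFun := fun x => (e.symm x) ((f n).2 s)
        map_add' := fun x y => by rw [map_add]; rfl
        map_smul' := fun c x => by rw [map_smul]; rfl } (E' * ‖(f n).2 s‖) (fun x => by
          calc ‖(e.symm x) ((f n).2 s)‖ ≤ ‖e.symm x‖ * ‖(f n).2 s‖ := ContinuousLinearMap.le_opNorm _ _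
            _ ≤ (E' * ‖x‖) * ‖(f n).2 s‖ := by
              gcongr
              exact ContinuousLinearMap.le_opNorm (e.symm : SumSpace hl →L[ℝ] StrongDual ℝ Y) x
            _ = E' * ‖(f n).2 s‖ * ‖x‖ := by ring)
  have hDapp : ∀ n s x, D n s x = (e.symm x) ((f n).2 s) := fun n s x => rfl
  set C' : ℝ := C * E' + 1 with hC'
  have hE'0 : 0 ≤ E' := norm_nonneg (e.symm : SumSpace hl →L[ℝ] StrongDual ℝ Y)
  have hC'0 : 0 < C' := by positivity
  have hDsum : ∀ n x, ∑ s, |D n s x| ≤ C' * ‖x‖ := by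
    intro n x
    let ε : (Fin (n + 1) → Bool) → Bool := fun s => decide (0 ≤ D n s x)
    have h1 : ∀ s, |D n s x| = sg (ε s) * D n s x := by
      intro s
      unfold sg
      by_cases h : 0 ≤ D n s x
      · simp [ε, h, abs_of_nonneg h]
      · simp [ε, h, abs_of_neg (not_le.mp h)]
    calc ∑ s, |D n s x| = ∑ s, sg (ε s) * (e.symm x) ((f n).2 s) := Finset.sum_congr rfl fun s _ => h1 s
      _ = (e.symm x) (∑ s, sg (ε s) • (f n).2 s) := by
        rw [map_sum]
        refine Finset.sum_congr rfl fun s _ => ?_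
        rw [map_smul, smul_eq_mul]
      _ ≤ ‖(e.symm x) (∑ s, sg (ε s) • (f n).2 s)‖ := le_abs_self _
      _ ≤ ‖e.symm x‖ * ‖∑ s, sg (ε s) • (f n).2 s‖ := ContinuousLinearMap.le_opNorm _ _
      _ ≤ (E' * ‖x‖) * C := by
        gcongr
        · exact ContinuousLinearMap.le_opNorm (e.symm : SumSpace hl →L[ℝ] StrongDual ℝ Y) x
        · exact (hf (n + 1)).bdd n (by omega) ε
      _ ≤ C' * ‖x‖ := by
        rw [hC']
        nlinarith [norm_nonneg x]
  have hDnorm : ∀ n s x, |D n s x| ≤ C' * ‖x‖ := fun n s x =>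
    (Finset.single_le_sum (f := fun s => |D n s x|) (fun s _ => abs_nonneg _) (Finset.mem_univ s)).trans (hDsum n x)
  -- decompose
  have hdec : ∀ σ, ∃ (u : Lp ℝ 1 hl) (v : Lp ℝ ⊤ hl), e (g σ) = ofL1 u + ofLinf v ∧ ‖u‖ + ‖v‖ < ‖e (g σ)‖ + 1 :=
    fun σ => exists_decomp' _ one_pos
  choose u v huv1 huv2 using hdec
  set R : ℝ := C * (2 * E') + 1 with hR
  have hR0 : 0 < R := by positivity
  have hvR : ∀ σ, ‖v σ‖ ≤ R := by
    intro σ
    have h1 : ‖e (g σ)‖ ≤ C * (2 * E') := by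
      calc ‖e (g σ)‖ ≤ ‖(e : StrongDual ℝ Y →L[ℝ] SumSpace hl)‖ * ‖g σ‖ := ContinuousLinearMap.le_opNorm (e : StrongDual ℝ Y →L[ℝ] SumSpace hl) _
        _ ≤ C * (2 * E') := by
          gcongr
          · rw [hC]; linarith
          · exact hg1 σ
    have := huv2 σ
    have := norm_nonneg (u σ)
    linarith
  obtain ⟨u0, hu0⟩ := exists_infinite_ball u (1 / (8 * C')) (by positivity)
  -- choose a large finite subset
  obtain ⟨K, hK⟩ := exists_nat_gt (64 * R ^ 2 * C' ^ 2 + 8 * C' * ‖u0‖)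
  obtain ⟨S, hS1, hS2⟩ := hu0.exists_subset_card_eq K
  obtain ⟨n, hn⟩ := exists_level S
  -- main estimate
  have hmain : ∀ σ ∈ S, 3 / 8 ≤ |D n (fun i => σ i) (ofL1 u0)| + D n (fun i => σ i) (ofLinf (v σ)) := by
    intro σ hσ
    have h1 : 1 / 2 ≤ D n (fun i => σ i) (e (g σ)) := by
      rw [hDapp, ContinuousLinearEquiv.symm_apply_apply]
      exact hg2 σ n
    rw [huv1, map_add] at h1
    have h2 : |D n (fun i => σ i) (ofL1 (u σ)) - D n (fun i => σ i) (ofL1 u0)| ≤ 1 / 8 := by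
      rw [← map_sub, ← map_sub]
      have h3 : ‖u σ - u0‖ ≤ 1 / (8 * C') := hS1 hσ
      calc |D n (fun i => σ i) (ofL1 (u σ - u0))| ≤ C' * ‖(ofL1 (u σ - u0) : SumSpace hl)‖ := hDnorm _ _ _
        _ ≤ C' * (1 / (8 * C')) := by
          gcongr
          exact (norm_ofL1_le _).trans h3
        _ = 1 / 8 := by field_simp
    rw [abs_le] at h2
    have h4 := le_abs_self (D n (fun i => σ i) (ofL1 u0))
    linarith [h2.2]
  -- good subset
  set G : Finset (ℕ → Bool) := S.filter (fun σ => |D n (fun i => σ i) (ofL1 u0)| ≤ 1 / 8) with hG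
  have hGcard : (K : ℝ) - 8 * C' * ‖u0‖ ≤ G.card := by
    set B : Finset (ℕ → Bool) := S.filter (fun σ => ¬ |D n (fun i => σ i) (ofL1 u0)| ≤ 1 / 8) with hB
    have h1 : G.card + B.card = K := by
      rw [← hS2]; exact Finset.card_filter_add_card_filter_not _
    have h2 : (B.card : ℝ) * (1 / 8) ≤ C' * ‖u0‖ := by
      calc (B.card : ℝ) * (1 / 8) = ∑ σ ∈ B, (1 / 8 : ℝ) := by rw [Finset.sum_const, nsmul_eq_mul]
        _ ≤ ∑ σ ∈ B, |D n (fun i => σ i) (ofL1 u0)| := by
          refine Finset.sum_le_sum fun σ hσ => ?_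
          have := (Finset.mem_filter.mp hσ).2
          exact (not_le.mp this).le
        _ = ∑ s ∈ B.image (fun (σ : ℕ → Bool) => (fun i : Fin (n + 1) => σ i)), |D n s (ofL1 u0)| := by
          rw [Finset.sum_image]
          intro σ hσ τ hτ h
          exact hn (Finset.mem_of_mem_filter σ hσ) (Finset.mem_of_mem_filter τ hτ) h
        _ ≤ ∑ s, |D n s (ofL1 u0)| := Finset.sum_le_sum_of_subset_of_nonneg (Finset.subset_univ _) fun _ _ _ => abs_nonneg _
        _ ≤ C' * ‖(ofL1 u0 : SumSpace hl)‖ := hDsum _ _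
        _ ≤ C' * ‖u0‖ := by
          gcongr
          exact norm_ofL1_le _
    have h3 : (G.card : ℝ) + B.card = K := by exact_mod_cast h1
    linarith
  -- apply the Riesz product lemma
  have hriesz := riesz hl (κ := G) (fun σ => (D n (fun i => (σ : ℕ → Bool) i)).comp ofLinf) C' (by
      intro z
      calc ∑ σ : G, |((D n (fun i => (σ : ℕ → Bool) i)).comp ofLinf) z| 
          = ∑ σ ∈ G, |D n (fun i => σ i) (ofLinf z)| := by
            rw [← Finset.sum_coe_sort G (fun σ : ℕ → Bool => |D n (fun i => σ i) (ofLinf z)|)]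
            rfl
        _ = ∑ s ∈ G.image (fun (σ : ℕ → Bool) => (fun i : Fin (n + 1) => σ i)), |D n s (ofLinf z)| := by
          rw [Finset.sum_image]
          intro σ hσ τ hτ h
          exact hn (Finset.mem_of_mem_filter σ hσ) (Finset.mem_of_mem_filter τ hτ) h
        _ ≤ ∑ s, |D n s (ofLinf z)| := Finset.sum_le_sum_of_subset_of_nonneg (Finset.subset_univ _) fun _ _ _ => abs_nonneg _
        _ ≤ C' * ‖(ofLinf z : SumSpace hl)‖ := hDsum _ _
        _ ≤ C' * ‖z‖ := by
          gcongr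
          exact norm_ofLinf_le _)
    (fun σ => R⁻¹ • v σ) (by
      intro σ
      rw [norm_smul, norm_inv, Real.norm_of_nonneg hR0.le, inv_mul_le_iff₀ hR0, mul_one]
      exact hvR _) (1 / (4 * R)) (by positivity) (by
      intro σ
      have h1 := hmain σ (Finset.mem_of_mem_filter _ σ.2)
      have h2 := (Finset.mem_filter.mp σ.2).2
      have h3 : 1 / 4 ≤ D n (fun i => (σ : ℕ → Bool) i) (ofLinf (v σ)) := by linarith
      rw [map_smul, smul_eq_mul]
      change 1 / (4 * R) ≤ R⁻¹ * D n (fun i => (σ : ℕ → Bool) i) (ofLinf (v σ))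
      calc 1 / (4 * R) = R⁻¹ * (1 / 4) := by field_simp
        _ ≤ _ := by gcongr)
  rw [Fintype.card_coe] at hriesz
  have h1 : (G.card : ℝ) ≤ 64 * R ^ 2 * C' ^ 2 := by
    have h2 : (1 / (4 * R)) ^ 2 * (G.card : ℝ) = (G.card : ℝ) / (16 * R ^ 2) := by
      field_simp
      ring
    rw [h2, div_le_iff₀ (by positivity)] at hriesz
    linarith
  linarith


end

end Pool.Agent.Helper81.SumDual
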